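import Pool.Agent.H532R2.MC.Der

/-!
# Shannon's lower bound

The number of functions with circuits of size `t` is at most `t ^ (t + o(t))`.
-/

namespace Pool.Agent.H532R2.MC

open Finset

section

variable {n : ℕ}

/-- The inputs of a gate: variables or gates. -/
abbrev Src (n s : ℕ) : Type := Fin n ⊕ Fin s

/-- The code of a gate. -/
abbrev Code (n s : ℕ) : Type := Bool × (Src n s × Bool) × (Src n s × Bool)

/-- The function at an input. -/
def sval {s : ℕ} (G : Fin s → BF n) : Src n s → BF n
  | Sum.inl i => fun x => x i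
  | Sum.inr j => G j

/-- The function at an input, possibly negated. -/
def nval {s : ℕ} (G : Fin s → BF n) (p : Src n s × Bool) : BF n := fun x => sval G p.1 x ^^ p.2

/-- The function computed by a gate. -/
def cval {s : ℕ} (G : Fin s → BF n) (c : Code n s) : BF n := fun x =>
  if c.1 then nval G c.2.1 x && nval G c.2.2 x else nval G c.2.1 x || nval G c.2.2 x

/-- The inputs of the gates have smaller rank. -/
def Ranked {s : ℕ} (κ : Fin s → Code n s) (rk : Fin s → ℕ) : Prop :=
  ∀ j i, ((κ j).2.1.1 = Sum.inr i ∨ (κ j).2.2.1 = Sum.inr i) → rk i < rk j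

/-- A circuit whose gates compute different functions. -/
def Ok (s : ℕ) (G : Fin s → BF n) (κ : Fin s → Code n s) : Prop :=
  Function.Injective G ∧ (∀ j, G j = cval G (κ j)) ∧ Ranked κ (fun j => (j : ℕ))

/-- The circuit computes `f` or its negation. -/
def Has {s : ℕ} (G : Fin s → BF n) (f : BF n) : Prop := ∃ p, f = nval G p

/-- Renaming of the gates. -/
def rnS {s s' : ℕ} (φ : Fin s → Fin s') : Src n s → Src n s'
  | Sum.inl i => Sum.inl i
  | Sum.inr j => Sum.inr (φ j)

/-- Renaming of the gates. -/
def rnP {s s' : ℕ} (φ : Fin s → Fin s') (p : Src n s × Bool) : Src n s' × Bool :=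
  (rnS φ p.1, p.2)

/-- Renaming of the gates. -/
def rnC {s s' : ℕ} (φ : Fin s → Fin s') (c : Code n s) : Code n s' :=
  (c.1, rnP φ c.2.1, rnP φ c.2.2)

theorem sval_rn {s s' : ℕ} {φ : Fin s → Fin s'} {G : Fin s → BF n} {G' : Fin s' → BF n}
    (h : ∀ j, G' (φ j) = G j) (a : Src n s) : sval G' (rnS φ a) = sval G a := by
  cases a with
  | inl i => rfl
  | inr j => exact h j

theorem nval_rn {s s' : ℕ} {φ : Fin s → Fin s'} {G : Fin s → BF n} {G' : Fin s' → BF n}
    (h : ∀ j, G' (φ j) = G j) (p : Src n s × Bool) : nval G' (rnP φ p) = nval G p := by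
  unfold nval rnP
  rw [sval_rn h]

theorem cval_rn {s s' : ℕ} {φ : Fin s → Fin s'} {G : Fin s → BF n} {G' : Fin s' → BF n}
    (h : ∀ j, G' (φ j) = G j) (c : Code n s) : cval G' (rnC φ c) = cval G c := by
  unfold cval rnC
  simp only [nval_rn h]

theorem extend {s : ℕ} {G : Fin s → BF n} {κ : Fin s → Code n s} (h : Ok s G κ) (c : Code n s) :
    ∃ s' ≤ s + 1, ∃ (G' : Fin s' → BF n) (κ' : Fin s' → Code n s'), Ok s' G' κ' ∧
      (∀ f, Has G f → Has G' f) ∧ Has G' (cval G c) := by
  by_cases hc : ∃ j, G j = cval G c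
  · obtain ⟨j, hj⟩ := hc
    refine ⟨s, Nat.le_succ s, G, κ, h, fun f hf => hf, (Sum.inr j, false), ?_⟩
    rw [← hj]
    funext x
    simp [nval, sval]
  · push Not at hc
    obtain ⟨h1, h2, h3⟩ := h
    let G' : Fin (s + 1) → BF n := Fin.snoc G (cval G c)
    have hG' : ∀ j : Fin s, G' j.castSucc = G j := fun j => Fin.snoc_castSucc (α := fun _ => BF n) _ _ _
    have hl : G' (Fin.last s) = cval G c := Fin.snoc_last (α := fun _ => BF n) _ _
    let κ' : Fin (s + 1) → Code n (s + 1) :=
      Fin.snoc (fun j => rnC Fin.castSucc (κ j)) (rnC Fin.castSucc c)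
    have hκ' : ∀ j : Fin s, κ' j.castSucc = rnC Fin.castSucc (κ j) :=
      fun j => Fin.snoc_castSucc (α := fun _ => Code n (s + 1)) _ _ _
    have hκl : κ' (Fin.last s) = rnC Fin.castSucc c :=
      Fin.snoc_last (α := fun _ => Code n (s + 1)) _ _
    refine ⟨s + 1, le_rfl, G', κ', ⟨?_, ?_, ?_⟩, ?_, ?_⟩
    · intro a b hab
      induction a using Fin.lastCases with
      | last =>
        induction b using Fin.lastCases with
        | last => rfl
        | cast b => rw [hl, hG'] at hab; exact absurd hab.symm (hc b)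
      | cast a =>
        induction b using Fin.lastCases with
        | last => rw [hl, hG'] at hab; exact absurd hab (hc a)
        | cast b =>
          rw [hG', hG'] at hab
          rw [h1 hab]
    · intro j
      induction j using Fin.lastCases with
      | last => rw [hl, hκl, cval_rn hG']
      | cast j => rw [hG', hκ', cval_rn hG']; exact h2 j
    · have key : ∀ (d : Code n s) (i : Fin (s + 1)), ((rnC (n := n) Fin.castSucc d).2.1.1 = Sum.inr i ∨
          (rnC (n := n) Fin.castSucc d).2.2.1 = Sum.inr i) →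
          ∃ i' : Fin s, i = i'.castSucc ∧ (d.2.1.1 = Sum.inr i' ∨ d.2.2.1 = Sum.inr i') := by
        intro d i hd
        rcases hd with hd | hd
        · cases h5 : d.2.1.1 with
          | inl k => simp [rnC, rnP, rnS, h5] at hd
          | inr k =>
            simp only [rnC, rnP, rnS, h5, Sum.inr.injEq] at hd
            exact ⟨k, hd.symm, Or.inl rfl⟩
        · cases h5 : d.2.2.1 with
          | inl k => simp [rnC, rnP, rnS, h5] at hd
          | inr k =>
            simp only [rnC, rnP, rnS, h5, Sum.inr.injEq] at hd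
            exact ⟨k, hd.symm, Or.inr rfl⟩
      intro j i hij
      induction j using Fin.lastCases with
      | last =>
        rw [hκl] at hij
        obtain ⟨i', rfl, _⟩ := key _ _ hij
        exact i'.2
      | cast j =>
        rw [hκ'] at hij
        obtain ⟨i', rfl, h6⟩ := key _ _ hij
        exact h3 j i' h6
    · rintro f ⟨p, rfl⟩
      exact ⟨rnP Fin.castSucc p, (nval_rn hG' p).symm⟩
    · refine ⟨(Sum.inr (Fin.last s), false), ?_⟩
      rw [← hl]
      funext x
      simp [nval, sval]

theorem exists_ok {L : List (BF n)} {t : ℕ} (h : Der (vars n) L t) :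
    ∃ s ≤ t, ∃ (G : Fin s → BF n) (κ : Fin s → Code n s), Ok s G κ ∧ ∀ f ∈ L, Has G f := by
  induction h with
  | nil =>
    refine ⟨0, le_rfl, fun j => j.elim0, fun j => j.elim0, ⟨fun j => j.elim0, fun j => j.elim0,
      fun j => j.elim0⟩, by simp⟩
  | @base L t f hf _ ih =>
    obtain ⟨s, hs, G, κ, h1, h2⟩ := ih
    refine ⟨s, hs, G, κ, h1, ?_⟩
    intro g hg
    rcases List.mem_cons.1 hg with rfl | hg
    · obtain ⟨i, rfl⟩ := hf
      refine ⟨(Sum.inl i, false), ?_⟩
      funext x
      simp [nval, sval]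
    · exact h2 g hg
  | @not L t f _ hf ih =>
    obtain ⟨s, hs, G, κ, h1, h2⟩ := ih
    refine ⟨s, hs, G, κ, h1, ?_⟩
    intro g hg
    rcases List.mem_cons.1 hg with rfl | hg
    · obtain ⟨⟨a, b⟩, rfl⟩ := h2 f hf
      refine ⟨(a, !b), ?_⟩
      funext x
      simp only [nval]
      cases sval G a x <;> cases b <;> rfl
    · exact h2 g hg
  | @and L t f g _ hf hg ih =>
    obtain ⟨s, hs, G, κ, h1, h2⟩ := ih
    obtain ⟨p, rfl⟩ := h2 f hf
    obtain ⟨p', rfl⟩ := h2 g hg
    obtain ⟨s', hs', G', κ', h3, h4, h5⟩ := extend h1 (true, p, p')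
    refine ⟨s', by omega, G', κ', h3, ?_⟩
    intro g hg
    rcases List.mem_cons.1 hg with rfl | hg
    · exact h5
    · exact h4 g (h2 g hg)
  | @or L t f g _ hf hg ih =>
    obtain ⟨s, hs, G, κ, h1, h2⟩ := ih
    obtain ⟨p, rfl⟩ := h2 f hf
    obtain ⟨p', rfl⟩ := h2 g hg
    obtain ⟨s', hs', G', κ', h3, h4, h5⟩ := extend h1 (false, p, p')
    refine ⟨s', by omega, G', κ', h3, ?_⟩
    intro g hg
    rcases List.mem_cons.1 hg with rfl | hg
    · exact h5
    · exact h4 g (h2 g hg)

/-- The functions computed by an acyclic circuit are determined by its codes. -/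
theorem unique_of_ranked {s : ℕ} {κ : Fin s → Code n s} {rk : Fin s → ℕ} (hr : Ranked κ rk)
    {G G' : Fin s → BF n} (h : ∀ j, G j = cval G (κ j)) (h' : ∀ j, G' j = cval G' (κ j)) :
    G = G' := by
  have key : ∀ m j, rk j < m → G j = G' j := by
    intro m
    induction m with
    | zero => intro j hj; omega
    | succ m ih =>
      intro j hj
      have hs : ∀ a : Src n s, ((κ j).2.1.1 = a ∨ (κ j).2.2.1 = a) → sval G a = sval G' a := by
        intro a ha
        cases a with
        | inl i => rfl
        | inr i =>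
          have := hr j i ha
          exact ih i (by omega)
      rw [h j, h' j]
      unfold cval nval
      rw [hs _ (Or.inl rfl), hs _ (Or.inr rfl)]
  funext j
  exact key _ j (Nat.lt_succ_self _)

open Classical in
/-- The functions computed by circuits with exactly `s` different gates. -/
noncomputable def exact (n s : ℕ) : Finset (BF n) :=
  univ.filter fun f => ∃ (G : Fin s → BF n) (κ : Fin s → Code n s), Ok s G κ ∧ Has G f

theorem exact_card (n s : ℕ) :
    s.factorial * (exact n s).card ≤ (8 * (n + s) ^ 2) ^ s * (2 * (n + s)) := by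
  classical
  have hmem : ∀ f : exact n s, ∃ (G : Fin s → BF n) (κ : Fin s → Code n s) (p : Src n s × Bool),
      Ok s G κ ∧ f.1 = nval G p := by
    rintro ⟨f, hf⟩
    obtain ⟨G, κ, h1, p, h2⟩ := (Finset.mem_filter.1 hf).2
    exact ⟨G, κ, p, h1, h2⟩
  choose G κ p hok hf using hmem
  let Φ : Equiv.Perm (Fin s) × exact n s → (Fin s → Code n s) × (Src n s × Bool) := fun a =>
    (fun j => rnC a.1 (κ a.2 (a.1.symm j)), rnP a.1 (p a.2))
  have hsys : ∀ (π : Equiv.Perm (Fin s)) (f : exact n s) (j : Fin s),
      G f (π.symm j) = cval (fun i => G f (π.symm i)) (rnC π (κ f (π.symm j))) := by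
    intro π f j
    rw [cval_rn (G := G f) (fun i => by simp)]
    exact (hok f).2.1 _
  have hrank : ∀ (π : Equiv.Perm (Fin s)) (f : exact n s),
      Ranked (fun j => rnC π (κ f (π.symm j))) (fun j => (π.symm j : ℕ)) := by
    intro π f j i hij
    have h3 := (hok f).2.2
    rcases hij with hd | hd
    · cases h5 : (κ f (π.symm j)).2.1.1 with
      | inl k => simp [rnC, rnP, rnS, h5] at hd
      | inr k =>
        simp only [rnC, rnP, rnS, h5, Sum.inr.injEq] at hd
        rw [← hd]
        show ((π.symm (π k) : Fin s) : ℕ) < _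
        rw [Equiv.symm_apply_apply]
        exact h3 _ _ (Or.inl h5)
    · cases h5 : (κ f (π.symm j)).2.2.1 with
      | inl k => simp [rnC, rnP, rnS, h5] at hd
      | inr k =>
        simp only [rnC, rnP, rnS, h5, Sum.inr.injEq] at hd
        rw [← hd]
        show ((π.symm (π k) : Fin s) : ℕ) < _
        rw [Equiv.symm_apply_apply]
        exact h3 _ _ (Or.inr h5)
  have hinj : Function.Injective Φ := by
    rintro ⟨π, f⟩ ⟨π', f'⟩ h
    have h1 : (fun j => rnC π (κ f (π.symm j))) = fun j => rnC π' (κ f' (π'.symm j)) :=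
      congrArg Prod.fst h
    have h2 : rnP π (p f) = rnP π' (p f') := congrArg Prod.snd h
    have h3 : (fun i => G f (π.symm i)) = fun i => G f' (π'.symm i) := by
      refine unique_of_ranked (hrank π f) (hsys π f) fun j => ?_
      have := hsys π' f' j
      rw [congrFun h1 j]
      exact this
    have h4 : f = f' := by
      apply Subtype.ext
      rw [hf f, hf f', ← nval_rn (φ := π) (G := G f) (G' := fun i => G f (π.symm i))
        (fun i => by simp), ← nval_rn (φ := π') (G := G f') (G' := fun i => G f' (π'.symm i))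
        (fun i => by simp), h2, h3]
    subst h4
    have h5 : π = π' := by
      have h6 : π.symm = π'.symm := by
        ext i
        exact congrArg Fin.val ((hok f).1 (congrFun h3 i))
      rw [← Equiv.symm_symm π, h6, Equiv.symm_symm]
    rw [h5]
  have hcard := Fintype.card_le_of_injective Φ hinj
  rw [Fintype.card_prod, Fintype.card_perm, Fintype.card_fin, Fintype.card_coe, Fintype.card_prod,
    Fintype.card_fun, Fintype.card_fin] at hcard
  refine hcard.trans (le_of_eq ?_)
  simp only [Fintype.card_prod, Fintype.card_sum, Fintype.card_fin, Fintype.card_bool]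
  congr 1
  · congr 1
    ring
  · ring

theorem factorial_le (s j : ℕ) : (s + j).factorial ≤ s.factorial * (s + j) ^ j := by
  induction j with
  | zero => simp
  | succ j ih =>
    rw [← add_assoc, Nat.factorial_succ]
    calc (s + j + 1) * (s + j).factorial ≤ (s + j + 1) * (s.factorial * (s + j) ^ j) :=
          Nat.mul_le_mul_left _ ih
      _ ≤ (s + j + 1) * (s.factorial * (s + j + 1) ^ j) :=
          Nat.mul_le_mul_left _ (Nat.mul_le_mul_left _ (Nat.pow_le_pow_left (Nat.le_succ _) _))
      _ = s.factorial * (s + j + 1) ^ (j + 1) := by ring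

open Classical in
/-- The functions with circuits of size at most `t`. -/
noncomputable def small (n t : ℕ) : Finset (BF n) := univ.filter fun f => SizeLE n f t

theorem small_card (n t : ℕ) :
    t.factorial * (small n t).card ≤ (t + 1) * ((8 * (n + t) ^ 2) ^ t * (2 * (n + t))) := by
  classical
  have h1 : small n t ⊆ (range (t + 1)).biUnion (exact n) := by
    intro f hf
    obtain ⟨L, t', h1, h2, h3⟩ := (Finset.mem_filter.1 hf).2
    rw [circuit_iff] at h1
    obtain ⟨s, hs, G, κ, h4, h5⟩ := exists_ok h1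
    rw [Finset.mem_biUnion]
    refine ⟨s, by rw [Finset.mem_range]; omega, ?_⟩
    exact Finset.mem_filter.2 ⟨Finset.mem_univ _, G, κ, h4, h5 f h2⟩
  have h2 : ∀ s ∈ range (t + 1), t.factorial * (exact n s).card ≤
      (8 * (n + t) ^ 2) ^ t * (2 * (n + t)) := by
    intro s hs
    obtain ⟨j, rfl⟩ := Nat.exists_eq_add_of_le (Nat.lt_succ_iff.1 (Finset.mem_range.1 hs))
    calc (s + j).factorial * (exact n s).card
        ≤ s.factorial * (s + j) ^ j * (exact n s).card :=
          Nat.mul_le_mul_right _ (factorial_le s j)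
      _ = (s + j) ^ j * (s.factorial * (exact n s).card) := by ring
      _ ≤ (s + j) ^ j * ((8 * (n + s) ^ 2) ^ s * (2 * (n + s))) :=
          Nat.mul_le_mul_left _ (exact_card n s)
      _ ≤ (8 * (n + (s + j)) ^ 2) ^ j * ((8 * (n + (s + j)) ^ 2) ^ s * (2 * (n + (s + j)))) := by
          gcongr
          · nlinarith [Nat.zero_le n, Nat.zero_le (s + j)]
          · omega
          · omega
      _ = _ := by rw [pow_add]; ring
  calc t.factorial * (small n t).card
      ≤ t.factorial * ∑ s ∈ range (t + 1), (exact n s).card :=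
        Nat.mul_le_mul_left _ ((Finset.card_le_card h1).trans Finset.card_biUnion_le)
    _ = ∑ s ∈ range (t + 1), t.factorial * (exact n s).card := by rw [Finset.mul_sum]
    _ ≤ ∑ _s ∈ range (t + 1), (8 * (n + t) ^ 2) ^ t * (2 * (n + t)) := Finset.sum_le_sum h2
    _ = _ := by rw [Finset.sum_const, Finset.card_range, smul_eq_mul]

theorem pow_self_le (t : ℕ) : t ^ t ≤ 3 ^ t * t.factorial := by
  have h1 : ((t : ℝ) ^ t) / t.factorial ≤ Real.exp t :=
    Real.pow_div_factorial_le_exp t (Nat.cast_nonneg t) t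
  have h2 : Real.exp t ≤ 3 ^ t := by
    rw [← Real.exp_one_pow]
    refine pow_le_pow_left₀ (Real.exp_pos _).le ?_ t
    have := Real.exp_one_lt_d9
    linarith
  have h3 : (0 : ℝ) < t.factorial := by exact_mod_cast Nat.factorial_pos t
  have h4 := h1.trans h2
  rw [div_le_iff₀ h3] at h4
  exact_mod_cast h4

/-- Shannon's bound. -/
theorem shannon {n t : ℕ} (hn : n ≤ t) (ht : 96 * t ≤ 2 ^ n) :
    (small n t).card ≤ 4 * t * (t + 1) * 2 ^ (n * t) := by
  rcases Nat.eq_zero_or_pos t with rfl | h0
  · have : n = 0 := by omega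
    subst this
    norm_num at ht
    have := small_card 0 0
    simpa using this
  have h1 : (small n t).card * t ^ t ≤ 4 * t * (t + 1) * (96 * t) ^ t * t ^ t := by
    calc (small n t).card * t ^ t ≤ (small n t).card * (3 ^ t * t.factorial) :=
          Nat.mul_le_mul_left _ (pow_self_le t)
      _ = 3 ^ t * (t.factorial * (small n t).card) := by ring
      _ ≤ 3 ^ t * ((t + 1) * ((8 * (n + t) ^ 2) ^ t * (2 * (n + t)))) :=
          Nat.mul_le_mul_left _ (small_card n t)
      _ ≤ 3 ^ t * ((t + 1) * ((8 * (t + t) ^ 2) ^ t * (2 * (t + t)))) := by gcongr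
      _ = 4 * t * (t + 1) * (3 ^ t * (8 * (t + t) ^ 2) ^ t) := by ring
      _ = 4 * t * (t + 1) * ((96 * t) ^ t * t ^ t) := by
          rw [← mul_pow, ← mul_pow]
          congr 2
          ring
      _ = _ := by ring
  have h2 : (small n t).card ≤ 4 * t * (t + 1) * (96 * t) ^ t :=
    Nat.le_of_mul_le_mul_right h1 (pow_pos h0 t)
  refine h2.trans (Nat.mul_le_mul_left _ ?_)
  rw [pow_mul]
  exact Nat.pow_le_pow_left ht t

end

end Pool.Agent.H532R2.MC
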