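import Mathlib

/-!
# The Minimum Circuit Size Problem: definitions
-/

namespace Pool.Agent.H532R2.MC

/-- Boolean functions of `n` variables. -/
abbrev BF (n : ℕ) : Type := (Fin n → Bool) → Bool

/-- `Circuit n L s` says that there is a De Morgan circuit on `n` variables with exactly `s` AND and OR
gates whose nodes, listed in topological order (the last node first), compute the functions in the
list `L`. The nodes are variables, negations of a node, and conjunctions and disjunctions of two
nodes; there are no constants. -/
inductive Circuit (n : ℕ) : List (BF n) → ℕ → Prop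
  | nil : Circuit n [] 0
  | var {L : List (BF n)} {s : ℕ} (i : Fin n) : Circuit n L s → Circuit n ((fun x => x i) :: L) s
  | not {L : List (BF n)} {s : ℕ} {f : BF n} : Circuit n L s → f ∈ L →
      Circuit n ((fun x => !f x) :: L) s
  | and {L : List (BF n)} {s : ℕ} {f g : BF n} : Circuit n L s → f ∈ L → g ∈ L →
      Circuit n ((fun x => f x && g x) :: L) (s + 1)
  | or {L : List (BF n)} {s : ℕ} {f g : BF n} : Circuit n L s → f ∈ L → g ∈ L →
      Circuit n ((fun x => f x || g x) :: L) (s + 1)

/-- The function `f` has a De Morgan circuit with at most `s` AND and OR gates. -/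
def SizeLE (n : ℕ) (f : BF n) (s : ℕ) : Prop := ∃ L t, Circuit n L t ∧ f ∈ L ∧ t ≤ s

/-- The truth table of a function: the list of its values on all inputs in lexicographic order. -/
def table : (n : ℕ) → BF n → List Bool
  | 0, f => [f Fin.elim0]
  | n + 1, f => table n (fun x => f (Fin.cons false x)) ++ table n (fun x => f (Fin.cons true x))

/-- The yes-instances of the Minimum Circuit Size Problem. -/
def MCSP (n : ℕ) (T : List Bool) (s : ℕ) : Prop := 1 ≤ n ∧ ∃ f : BF n, T = table n f ∧ SizeLE n f s

end Pool.Agent.H532R2.MC
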