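import Pool.Agent.H532R2.MC.Defs

/-!
# Computations from a set of given functions
-/

namespace Pool.Agent.H532R2.MC

open Finset

/-- Computations with AND, OR and NOT gates from the functions in `B`; only AND and OR count. -/
inductive Der {α : Type} (B : Set (α → Bool)) : List (α → Bool) → ℕ → Prop
  | nil : Der B [] 0
  | base {L : List (α → Bool)} {s : ℕ} {f : α → Bool} : f ∈ B → Der B L s → Der B (f :: L) s
  | not {L : List (α → Bool)} {s : ℕ} {f : α → Bool} : Der B L s → f ∈ L →
      Der B ((fun x => !f x) :: L) s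
  | and {L : List (α → Bool)} {s : ℕ} {f g : α → Bool} : Der B L s → f ∈ L → g ∈ L →
      Der B ((fun x => f x && g x) :: L) (s + 1)
  | or {L : List (α → Bool)} {s : ℕ} {f g : α → Bool} : Der B L s → f ∈ L → g ∈ L →
      Der B ((fun x => f x || g x) :: L) (s + 1)

/-- The variables. -/
def vars (n : ℕ) : Set (BF n) := Set.range fun (i : Fin n) (x : Fin n → Bool) => x i

theorem circuit_iff {n : ℕ} {L : List (BF n)} {s : ℕ} : Circuit n L s ↔ Der (vars n) L s := by
  constructor
  · intro h
    induction h with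
    | nil => exact Der.nil
    | var i _ ih => exact Der.base ⟨i, rfl⟩ ih
    | not _ hf ih => exact Der.not ih hf
    | and _ hf hg ih => exact Der.and ih hf hg
    | or _ hf hg ih => exact Der.or ih hf hg
  · intro h
    induction h with
    | nil => exact Circuit.nil
    | base hf _ ih =>
      obtain ⟨i, rfl⟩ := hf
      exact Circuit.var i ih
    | not _ hf ih => exact Circuit.not ih hf
    | and _ hf hg ih => exact Circuit.and ih hf hg
    | or _ hf hg ih => exact Circuit.or ih hf hg

variable {α β : Type}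

theorem Der.mono {B B' : Set (α → Bool)} (h : B ⊆ B') {L : List (α → Bool)} {s : ℕ}
    (hL : Der B L s) : Der B' L s := by
  induction hL with
  | nil => exact Der.nil
  | base hf _ ih => exact Der.base (h hf) ih
  | not _ hf ih => exact Der.not ih hf
  | and _ hf hg ih => exact Der.and ih hf hg
  | or _ hf hg ih => exact Der.or ih hf hg

theorem Der.precomp {B : Set (α → Bool)} (φ : β → α) {L : List (α → Bool)} {s : ℕ}
    (hL : Der B L s) :
    Der ((fun (f : α → Bool) (x : β) => f (φ x)) '' B) (L.map fun f x => f (φ x)) s := by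
  induction hL with
  | nil => exact Der.nil
  | base hf _ ih => exact Der.base ⟨_, hf, rfl⟩ ih
  | not _ hf ih => exact Der.not ih (List.mem_map_of_mem hf)
  | and _ hf hg ih => exact Der.and ih (List.mem_map_of_mem hf) (List.mem_map_of_mem hg)
  | or _ hf hg ih => exact Der.or ih (List.mem_map_of_mem hf) (List.mem_map_of_mem hg)

/-- All functions in `S` can be computed together from `B` with `s` gates. -/
def Comp (B S : Set (α → Bool)) (s : ℕ) : Prop := ∃ L t, Der B L t ∧ (∀ f ∈ S, f ∈ L) ∧ t ≤ s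

/-- The function `f` can be computed from `B` with `s` gates. -/
def Cst (B : Set (α → Bool)) (f : α → Bool) (s : ℕ) : Prop := Comp B {f} s

theorem sizeLE_iff {n : ℕ} {f : BF n} {s : ℕ} : SizeLE n f s ↔ Cst (vars n) f s := by
  unfold SizeLE Cst Comp
  simp only [circuit_iff, Set.mem_singleton_iff, forall_eq]

theorem Comp.mono {B B' S S' : Set (α → Bool)} {s s' : ℕ} (h : Comp B S s) (hB : B ⊆ B')
    (hS : S' ⊆ S) (hs : s ≤ s') : Comp B' S' s' := by
  obtain ⟨L, t, h1, h2, h3⟩ := h
  exact ⟨L, t, h1.mono hB, fun f hf => h2 f (hS hf), h3.trans hs⟩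

theorem Comp.empty (B : Set (α → Bool)) : Comp B ∅ 0 := ⟨[], 0, Der.nil, by simp, le_rfl⟩

/-- Composition of computations. -/
theorem Comp.comp {B S S' : Set (α → Bool)} {s s' : ℕ} (h : Comp B S s) (h' : Comp (B ∪ S) S' s') :
    Comp B (S ∪ S') (s + s') := by
  obtain ⟨L, t, h1, h2, h3⟩ := h
  obtain ⟨L', t', h1', h2', h3'⟩ := h'
  have key : ∀ M r, Der (B ∪ S) M r →
      ∃ K, Der B K (t + r) ∧ (∀ f ∈ L, f ∈ K) ∧ (∀ f ∈ M, f ∈ K) := by
    intro M r hM
    induction hM with
    | nil => exact ⟨L, h1, fun f hf => hf, by simp⟩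
    | @base M r f hf _ ih =>
      obtain ⟨K, k1, k2, k3⟩ := ih
      rcases hf with hf | hf
      · refine ⟨f :: K, Der.base hf k1, fun g hg => List.mem_cons_of_mem _ (k2 g hg), ?_⟩
        intro g hg
        rcases List.mem_cons.1 hg with rfl | hg
        · exact List.mem_cons_self
        · exact List.mem_cons_of_mem _ (k3 g hg)
      · refine ⟨K, k1, k2, ?_⟩
        intro g hg
        rcases List.mem_cons.1 hg with rfl | hg
        · exact k2 _ (h2 _ hf)
        · exact k3 g hg
    | @not M r f _ hf ih =>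
      obtain ⟨K, k1, k2, k3⟩ := ih
      refine ⟨_, Der.not k1 (k3 f hf), fun g hg => List.mem_cons_of_mem _ (k2 g hg), ?_⟩
      intro g hg
      rcases List.mem_cons.1 hg with rfl | hg
      · exact List.mem_cons_self
      · exact List.mem_cons_of_mem _ (k3 g hg)
    | @and M r f g _ hf hg ih =>
      obtain ⟨K, k1, k2, k3⟩ := ih
      refine ⟨_, Der.and k1 (k3 f hf) (k3 g hg), fun g hg => List.mem_cons_of_mem _ (k2 g hg), ?_⟩
      intro g hg
      rcases List.mem_cons.1 hg with rfl | hg
      · exact List.mem_cons_self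
      · exact List.mem_cons_of_mem _ (k3 g hg)
    | @or M r f g _ hf hg ih =>
      obtain ⟨K, k1, k2, k3⟩ := ih
      refine ⟨_, Der.or k1 (k3 f hf) (k3 g hg), fun g hg => List.mem_cons_of_mem _ (k2 g hg), ?_⟩
      intro g hg
      rcases List.mem_cons.1 hg with rfl | hg
      · exact List.mem_cons_self
      · exact List.mem_cons_of_mem _ (k3 g hg)
  obtain ⟨K, k1, k2, k3⟩ := key L' t' h1'
  refine ⟨K, t + t', k1, ?_, by omega⟩
  rintro f (hf | hf)
  · exact k2 f (h2 f hf)
  · exact k3 f (h2' f hf)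

theorem Comp.union {B S S' : Set (α → Bool)} {s s' : ℕ} (h : Comp B S s) (h' : Comp B S' s') :
    Comp B (S ∪ S') (s + s') :=
  h.comp (h'.mono Set.subset_union_left subset_rfl le_rfl)

/-- Families. -/
theorem Comp.family {ι : Type} (I : Finset ι) {B : Set (α → Bool)} {f : ι → α → Bool} {c : ℕ}
    (h : ∀ i ∈ I, Cst B (f i) c) : Comp B (f '' I) (I.card * c) := by
  classical
  induction I using Finset.induction_on with
  | empty => simpa using Comp.empty B
  | insert a I ha ih =>
    have h1 := (ih fun i hi => h i (Finset.mem_insert_of_mem hi)).union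
      (h a (Finset.mem_insert_self _ _))
    refine h1.mono subset_rfl ?_ (by rw [Finset.card_insert_of_notMem ha]; ring_nf; exact le_rfl)
    rintro g ⟨i, hi, rfl⟩
    rw [Finset.mem_coe, Finset.mem_insert] at hi
    rcases hi with rfl | hi
    · exact Or.inr rfl
    · exact Or.inl ⟨i, hi, rfl⟩

/-! ### Single functions -/

theorem Cst.mono {B B' : Set (α → Bool)} {f : α → Bool} {s s' : ℕ} (h : Cst B f s) (hB : B ⊆ B')
    (hs : s ≤ s') : Cst B' f s' := Comp.mono h hB subset_rfl hs

theorem Cst.of_mem {B : Set (α → Bool)} {f : α → Bool} (h : f ∈ B) : Cst B f 0 :=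
  ⟨[f], 0, Der.base h Der.nil, by simp, le_rfl⟩

theorem Cst.mem {B S : Set (α → Bool)} {f : α → Bool} {s : ℕ} (h : Comp B S s) (hf : f ∈ S) :
    Cst B f s := Comp.mono h subset_rfl (Set.singleton_subset_iff.2 hf) le_rfl

/-- Using computed functions. -/
theorem Comp.cst {B S : Set (α → Bool)} {f : α → Bool} {s t : ℕ} (h : Comp B S s)
    (h' : Cst (B ∪ S) f t) : Cst B f (s + t) := Cst.mem (h.comp h') (Or.inr rfl)

theorem Cst.not {B : Set (α → Bool)} {f : α → Bool} {s : ℕ} (h : Cst B f s) :
    Cst B (fun x => !f x) s := by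
  have d : Der (B ∪ {f}) [f] 0 := Der.base (Or.inr rfl) Der.nil
  have h1 : Cst (B ∪ {f}) (fun x => !f x) 0 :=
    ⟨_, 0, Der.not (f := f) d (by simp), by simp, le_rfl⟩
  exact Comp.cst h h1

theorem Cst.and {B : Set (α → Bool)} {f g : α → Bool} {s t : ℕ} (hf : Cst B f s)
    (hg : Cst B g t) : Cst B (fun x => f x && g x) (s + t + 1) := by
  have d : Der (B ∪ ({f} ∪ {g})) [f, g] 0 :=
    Der.base (Or.inr (Or.inl rfl)) (Der.base (Or.inr (Or.inr rfl)) Der.nil)
  have h1 : Cst (B ∪ ({f} ∪ {g})) (fun x => f x && g x) 1 :=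
    ⟨_, 1, Der.and (f := f) (g := g) d (by simp) (by simp), by simp, le_rfl⟩
  exact Comp.cst (Comp.union hf hg) h1

theorem Cst.or {B : Set (α → Bool)} {f g : α → Bool} {s t : ℕ} (hf : Cst B f s)
    (hg : Cst B g t) : Cst B (fun x => f x || g x) (s + t + 1) := by
  have d : Der (B ∪ ({f} ∪ {g})) [f, g] 0 :=
    Der.base (Or.inr (Or.inl rfl)) (Der.base (Or.inr (Or.inr rfl)) Der.nil)
  have h1 : Cst (B ∪ ({f} ∪ {g})) (fun x => f x || g x) 1 :=
    ⟨_, 1, Der.or (f := f) (g := g) d (by simp) (by simp), by simp, le_rfl⟩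
  exact Comp.cst (Comp.union hf hg) h1

theorem Cst.congr {B : Set (α → Bool)} {f g : α → Bool} {s : ℕ} (h : Cst B f s)
    (e : ∀ x, f x = g x) : Cst B g s := by
  have : f = g := funext e
  rwa [← this]

theorem Cst.xor {B : Set (α → Bool)} {f g : α → Bool} {s t : ℕ} (hf : Cst B f s)
    (hg : Cst B g t) : Cst B (fun x => f x ^^ g x) (s + t + 3) := by
  have hf' : Cst (B ∪ ({f} ∪ {g})) f 0 := Cst.of_mem (Or.inr (Or.inl rfl))
  have hg' : Cst (B ∪ ({f} ∪ {g})) g 0 := Cst.of_mem (Or.inr (Or.inr rfl))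
  have h1 : Cst (B ∪ ({f} ∪ {g})) (fun x => f x ^^ g x) 3 := by
    refine ((hf'.and hg'.not).or (hf'.not.and hg')).congr fun x => ?_
    cases f x <;> cases g x <;> rfl
  exact Comp.cst (Comp.union hf hg) h1

/-- The constants. -/
theorem Cst.false {B : Set (α → Bool)} {f : α → Bool} (hf : f ∈ B) :
    Cst B (fun _ => Bool.false) 1 := by
  refine ((Cst.of_mem hf).and (Cst.of_mem hf).not).congr fun x => ?_
  cases f x <;> rfl

theorem Cst.true {B : Set (α → Bool)} {f : α → Bool} (hf : f ∈ B) :
    Cst B (fun _ => Bool.true) 1 := (Cst.false hf).not.congr fun _ => rfl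

/-- Large disjunctions. -/
theorem Cst.bigOr {ι : Type} (I : Finset ι) {B : Set (α → Bool)} {f : ι → α → Bool} {c c0 : ℕ}
    (h0 : Cst B (fun _ => Bool.false) c0) (h : ∀ i ∈ I, Cst B (f i) c) {g : α → Bool}
    (hg : ∀ x, g x = Bool.true ↔ ∃ i ∈ I, f i x = Bool.true) :
    Cst B g (I.card * (c + 1) + c0) := by
  classical
  induction I using Finset.induction_on generalizing g with
  | empty =>
    refine (h0.mono subset_rfl (by simp)).congr fun x => ?_
    have := hg x
    simp at this
    exact this.symm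
  | insert a I ha ih =>
    refine (((h a (Finset.mem_insert_self _ _)).or
      (ih (g := fun x => decide (∃ i ∈ I, f i x = Bool.true))
        (fun i hi => h i (Finset.mem_insert_of_mem hi))
        (fun x => decide_eq_true_iff))).mono subset_rfl ?_).congr fun x => ?_
    · rw [Finset.card_insert_of_notMem ha]; ring_nf; omega
    · rw [Bool.eq_iff_iff, hg x, Bool.or_eq_true, decide_eq_true_iff]
      simp

/-- Large conjunctions. -/
theorem Cst.bigAnd {ι : Type} (I : Finset ι) {B : Set (α → Bool)} {f : ι → α → Bool} {c c0 : ℕ}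
    (h0 : Cst B (fun _ => Bool.true) c0) (h : ∀ i ∈ I, Cst B (f i) c) {g : α → Bool}
    (hg : ∀ x, g x = Bool.true ↔ ∀ i ∈ I, f i x = Bool.true) :
    Cst B g (I.card * (c + 1) + c0) := by
  classical
  induction I using Finset.induction_on generalizing g with
  | empty =>
    refine (h0.mono subset_rfl (by simp)).congr fun x => ?_
    have := hg x
    simp at this
    exact this.symm
  | insert a I ha ih =>
    refine (((h a (Finset.mem_insert_self _ _)).and
      (ih (g := fun x => decide (∀ i ∈ I, f i x = Bool.true))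
        (fun i hi => h i (Finset.mem_insert_of_mem hi))
        (fun x => decide_eq_true_iff))).mono subset_rfl ?_).congr fun x => ?_
    · rw [Finset.card_insert_of_notMem ha]; ring_nf; omega
    · rw [Bool.eq_iff_iff, hg x, Bool.and_eq_true, decide_eq_true_iff]
      simp

/-- Substitution. -/
theorem Cst.precomp {B : Set (α → Bool)} {B' : Set (β → Bool)} {f : α → Bool} {s : ℕ}
    (h : Cst B f s) (φ : β → α) (hB : ∀ g ∈ B, (fun x => g (φ x)) ∈ B') :
    Cst B' (fun x => f (φ x)) s := by
  obtain ⟨L, t, h1, h2, h3⟩ := h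
  refine ⟨_, t, (h1.precomp φ).mono ?_, ?_, h3⟩
  · rintro _ ⟨g, hg, rfl⟩
    exact hB g hg
  · rintro _ rfl
    exact List.mem_map_of_mem (f := fun (f : α → Bool) (x : β) => f (φ x)) (h2 f rfl)

end Pool.Agent.H532R2.MC
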