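import Pool.Agent.H532R2.MC.Main

/-!
# The sign rank of the Minimum Circuit Size Problem: truth tables as strings
-/

namespace Pool.Agent.H532R2.MC

open Finset Matrix

theorem table_length : ∀ (n : ℕ) (f : BF n), (table n f).length = 2 ^ n
  | 0, f => rfl
  | n + 1, f => by
    rw [table, List.length_append, table_length n, table_length n, pow_succ]
    ring

theorem table_injective : ∀ (n : ℕ) {f g : BF n}, table n f = table n g → f = g
  | 0, f, g, h => by
    have h1 : f Fin.elim0 = g Fin.elim0 := by simpa [table] using h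
    funext w
    have : w = Fin.elim0 := Subsingleton.elim _ _
    rw [this, h1]
  | n + 1, f, g, h => by
    rw [table, table] at h
    obtain ⟨h1, h2⟩ := List.append_inj h (by rw [table_length, table_length])
    have h3 := table_injective n h1
    have h4 := table_injective n h2
    funext w
    rw [← Fin.cons_self_tail w]
    cases w 0
    · exact congrFun h3 (Fin.tail w)
    · exact congrFun h4 (Fin.tail w)

theorem table_glue {n : ℕ} (x y : BF n) : table (n + 1) (glue x y) = table n x ++ table n y := by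
  rw [table]
  have h1 : (fun w : Fin n → Bool => glue x y (Fin.cons false w)) = x := by
    funext w; simp [glue]
  have h2 : (fun w : Fin n → Bool => glue x y (Fin.cons true w)) = y := by
    funext w; simp [glue]
  rw [h1, h2]

theorem mcsp_glue {n s : ℕ} (x y : BF n) :
    MCSP (n + 1) (table n x ++ table n y) s ↔ SizeLE (n + 1) (glue x y) s := by
  unfold MCSP
  rw [← table_glue]
  constructor
  · rintro ⟨_, f, h1, h2⟩
    rw [table_injective _ h1]
    exact h2
  · intro h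
    exact ⟨by omega, _, rfl, h⟩

/-- A function of the first variables only. -/
def str {ν N : ℕ} (h : ν ≤ N) (f : BF ν) : BF N := fun w => f (fun i => w (Fin.castLE h i))

theorem glue_str {ν N : ℕ} (h : ν ≤ N) (x y : BF ν) :
    glue (str h x) (str h y) = str (Nat.succ_le_succ h) (glue x y) := by
  funext w
  rfl

theorem sizeLE_str {ν N s : ℕ} (h : ν ≤ N) (g : BF (ν + 1)) :
    SizeLE (N + 1) (str (Nat.succ_le_succ h) g) s ↔ SizeLE (ν + 1) g s := by
  rw [sizeLE_iff, sizeLE_iff]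
  constructor
  · intro h1
    have h2 := h1.precomp (B' := vars (ν + 1)) (fun (w : Fin (ν + 1) → Bool) (j : Fin (N + 1)) =>
      if hj : (j : ℕ) < ν + 1 then w ⟨j, hj⟩ else w 0) (by
      rintro _ ⟨j, rfl⟩
      by_cases hj : (j : ℕ) < ν + 1
      · exact ⟨⟨j, hj⟩, by funext w; simp [hj]⟩
      · exact ⟨0, by funext w; simp [hj]⟩)
    refine h2.congr fun w => ?_
    unfold str
    congr 1
    funext i
    have hi : ((Fin.castLE (Nat.succ_le_succ h) i : Fin (N + 1)) : ℕ) < ν + 1 := i.2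
    show (if hj : ((Fin.castLE (Nat.succ_le_succ h) i : Fin (N + 1)) : ℕ) < ν + 1 then
      w ⟨_, hj⟩ else w 0) = w i
    rw [dif_pos hi]
    rfl
  · intro h1
    exact h1.precomp (fun (w : Fin (N + 1) → Bool) (i : Fin (ν + 1)) =>
      w (Fin.castLE (Nat.succ_le_succ h) i)) (by
      rintro _ ⟨i, rfl⟩
      exact ⟨_, rfl⟩)

/-- A strict threshold. -/
theorem exists_threshold {α : Type*} (S : Finset α) (f : α → ℝ) (h : ∀ a ∈ S, 0 < f a) :
    ∃ θ : ℝ, 0 < θ ∧ ∀ a ∈ S, θ < f a := by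
  rcases S.eq_empty_or_nonempty with rfl | hS
  · exact ⟨1, one_pos, by simp⟩
  · obtain ⟨a, ha, hmin⟩ := S.exists_min_image f hS
    refine ⟨f a / 2, half_pos (h a ha), fun b hb => ?_⟩
    have := hmin b hb
    have := h a ha
    linarith

/-- The lower bound with non-strict inequalities, general form. -/
theorem general {ν s₁ s₂ d : ℕ} (hν : 1024 < ν + 1) (hs₁ : 3 * 2 ^ (ν + 1) ≤ 5 * (ν + 1) * s₁)
    (h12 : s₁ ≤ s₂) (hs₂ : 10 * (ν + 1) * s₂ ≤ 9 * 2 ^ (ν + 1)) (u v : BF ν → Fin d → ℝ)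
    (hyes : ∀ x y, SizeLE (ν + 1) (glue x y) s₁ → 0 < ∑ i, u x i * v y i)
    (hno : ∀ x y, ¬SizeLE (ν + 1) (glue x y) s₂ → ∑ i, u x i * v y i ≤ 0) :
    2 ^ (2 ^ (ν + 1) / (ν + 1) ^ 6) ≤ d := by
  classical
  obtain ⟨θ, hθ, hmin⟩ := exists_threshold
    (univ.filter fun p : BF ν × BF ν => SizeLE (ν + 1) (glue p.1 p.2) s₁)
    (fun p => ∑ i, u p.1 i * v p.2 i) (fun p hp => hyes _ _ (Finset.mem_filter.1 hp).2)
  have hdot : ∀ x y, (Fin.cons (-θ) (u x) : Fin (d + 1) → ℝ) ⬝ᵥ (Fin.cons 1 (v y)) =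
      -θ + ∑ i, u x i * v y i := by
    intro x y
    rw [dotProduct, Fin.sum_univ_succ]
    simp
  have key := core (d := d + 1) hν hs₁ h12 hs₂ (fun x => Fin.cons (-θ) (u x))
    (fun y => Fin.cons 1 (v y)) (fun x y h => by
      rw [hdot]
      have := hmin (x, y) (Finset.mem_filter.2 ⟨Finset.mem_univ _, h⟩)
      linarith) (fun x y h => by
      rw [hdot]
      have := hno x y h
      linarith)
  generalize 2 ^ (ν + 1) / (ν + 1) ^ 6 = X at key
  rw [pow_succ] at key
  have : 1 ≤ 2 ^ X := Nat.one_le_two_pow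
  omega

/-- The sign rank of the Minimum Circuit Size Problem. -/
theorem sign_rank_mcsp (n m s₁ s₂ d : ℕ) (hm : 1024 < m) (hmn : m ≤ n)
    (hs₁ : 3 * 2 ^ m ≤ 5 * m * s₁) (h12 : s₁ ≤ s₂) (hs₂ : 10 * m * s₂ ≤ 9 * 2 ^ m)
    (a b : Fin d → List Bool → ℝ)
    (hyes : ∀ x y : List Bool, x.length = 2 ^ (n - 1) → y.length = 2 ^ (n - 1) →
      MCSP n (x ++ y) s₁ → 0 < ∑ i, a i x * b i y)
    (hno : ∀ x y : List Bool, x.length = 2 ^ (n - 1) → y.length = 2 ^ (n - 1) →
      ¬MCSP n (x ++ y) s₂ → ∑ i, a i x * b i y ≤ 0) :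
    2 ^ (2 ^ m / m ^ 6) ≤ d := by
  obtain ⟨N, rfl⟩ : ∃ N, n = N + 1 := ⟨n - 1, by omega⟩
  obtain ⟨ν, rfl⟩ : ∃ ν, m = ν + 1 := ⟨m - 1, by omega⟩
  have hνN : ν ≤ N := by omega
  rw [Nat.add_sub_cancel] at hyes hno
  refine general hm hs₁ h12 hs₂ (fun x i => a i (table N (str hνN x)))
    (fun y i => b i (table N (str hνN y))) ?_ ?_
  · intro x y h
    refine hyes _ _ (table_length _ _) (table_length _ _) ?_
    rw [mcsp_glue, glue_str hνN, sizeLE_str hνN]
    exact h
  · intro x y h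
    refine hno _ _ (table_length _ _) (table_length _ _) ?_
    rw [mcsp_glue, glue_str hνN, sizeLE_str hνN]
    exact h

end Pool.Agent.H532R2.MC
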