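import Mathlib

/-!
# Small-bias shifts are small in spectral norm
-/

set_option linter.unusedSectionVars false

namespace Pool.Agent.H532R2.MC

open Finset

/-- The sign of a truth value. -/
def sg (b : Bool) : ℝ := if b then -1 else 1

theorem sg_xor (a b : Bool) : sg (a ^^ b) = sg a * sg b := by
  cases a <;> cases b <;> simp [sg]

theorem sg_sq (a : Bool) : sg a * sg a = 1 := by cases a <;> simp [sg]

section

variable {ι : Type} [Fintype ι] [DecidableEq ι]

/-- The characters of the group of truth tables. -/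
def chi (S : Finset ι) (x : ι → Bool) : ℝ := ∏ i ∈ S, sg (x i)

theorem chi_xor (S : Finset ι) (x y : ι → Bool) :
    chi S (fun i => x i ^^ y i) = chi S x * chi S y := by
  unfold chi
  rw [← Finset.prod_mul_distrib]
  exact Finset.prod_congr rfl fun i _ => sg_xor _ _

theorem chi_empty (x : ι → Bool) : chi ∅ x = 1 := by simp [chi]

theorem chi_sum (x : ι → Bool) : ∑ S : Finset ι, chi S x =
    if x = fun _ => false then (2 : ℝ) ^ Fintype.card ι else 0 := by
  have h := Finset.prod_one_add (s := (univ : Finset ι)) (f := fun i => sg (x i))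
  rw [Finset.powerset_univ] at h
  unfold chi
  rw [← h]
  split_ifs with hx
  · subst hx
    simp only [sg]
    norm_num
  · obtain ⟨i, hi⟩ : ∃ i, x i = true := by
      by_contra hcon
      push Not at hcon
      exact hx (funext fun i => by simpa using hcon i)
    refine Finset.prod_eq_zero (Finset.mem_univ i) ?_
    rw [hi]
    norm_num [sg]

/-- Parseval's identity. -/
theorem parseval (a b : (ι → Bool) → ℝ) :
    ∑ S : Finset ι, (∑ x, chi S x * a x) * (∑ y, chi S y * b y) =
      2 ^ Fintype.card ι * ∑ x, a x * b x := by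
  calc ∑ S : Finset ι, (∑ x, chi S x * a x) * (∑ y, chi S y * b y)
      = ∑ x, ∑ y, a x * b y * ∑ S : Finset ι, chi S (fun i => x i ^^ y i) := by
        have h : ∀ S : Finset ι, (∑ x, chi S x * a x) * (∑ y, chi S y * b y) =
            ∑ x, ∑ y, a x * b y * chi S (fun i => x i ^^ y i) := by
          intro S
          rw [Finset.sum_mul_sum]
          refine Finset.sum_congr rfl fun x _ => Finset.sum_congr rfl fun y _ => ?_
          rw [chi_xor]
          ring
        rw [Finset.sum_congr rfl fun S _ => h S, Finset.sum_comm]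
        refine Finset.sum_congr rfl fun x _ => ?_
        rw [Finset.sum_comm]
        refine Finset.sum_congr rfl fun y _ => ?_
        rw [Finset.mul_sum]
    _ = ∑ x, 2 ^ Fintype.card ι * (a x * b x) := by
        refine Finset.sum_congr rfl fun x _ => ?_
        rw [Finset.sum_eq_single x]
        · rw [chi_sum, if_pos (by funext i; simp)]
          ring
        · intro y _ hy
          rw [chi_sum, if_neg, mul_zero]
          intro h
          refine hy (funext fun i => ?_)
          have := congrFun h i
          cases hx : x i <;> cases hy' : y i <;> simp_all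
        · simp
    _ = _ := by rw [Finset.mul_sum]

/-- Scalar form. -/
theorem shift_scalar {Ω : Type} [Fintype Ω] (e : Ω → ι → Bool) (ε : ℝ) (hε0 : 0 ≤ ε)
    (he : ∀ S : Finset ι, S.Nonempty → |∑ ω, chi S (e ω)| ≤ ε * Fintype.card Ω)
    (a b : (ι → Bool) → ℝ) :
    2 ^ Fintype.card ι * ∑ ω, ∑ x, a x * b (fun i => x i ^^ e ω i) -
      Fintype.card Ω * ((∑ x, a x) * ∑ y, b y) ≤
      ε * Fintype.card Ω * (2 ^ Fintype.card ι * ((∑ x, a x ^ 2 + ∑ y, b y ^ 2) / 2)) := by
  -- the transform of a shifted function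
  have hshift : ∀ (S : Finset ι) (c : ι → Bool),
      ∑ x, chi S x * b (fun i => x i ^^ c i) = chi S c * ∑ y, chi S y * b y := by
    intro S c
    let φ : (ι → Bool) ≃ (ι → Bool) :=
      { toFun := fun x i => x i ^^ c i
        invFun := fun x i => x i ^^ c i
        left_inv := fun x => by funext i; simp
        right_inv := fun x => by funext i; simp }
    rw [← Equiv.sum_comp φ (fun y => chi S y * b y), Finset.mul_sum]
    refine Finset.sum_congr rfl fun x _ => ?_
    have h1 : chi S (φ x) = chi S x * chi S c := chi_xor S x c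
    have h2 : chi S c * chi S c = 1 := by
      unfold chi
      rw [← Finset.prod_mul_distrib]
      exact Finset.prod_eq_one fun i _ => sg_sq _
    show chi S x * b (φ x) = chi S c * (chi S (φ x) * b (φ x))
    rw [h1]
    linear_combination (-(chi S x * b (φ x))) * h2
  have h1 : 2 ^ Fintype.card ι * ∑ ω, ∑ x, a x * b (fun i => x i ^^ e ω i) =
      ∑ S : Finset ι, (∑ ω, chi S (e ω)) * ((∑ x, chi S x * a x) * (∑ y, chi S y * b y)) := by
    rw [Finset.mul_sum]
    have : ∀ ω, 2 ^ Fintype.card ι * ∑ x, a x * b (fun i => x i ^^ e ω i) =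
        ∑ S : Finset ι, chi S (e ω) * ((∑ x, chi S x * a x) * (∑ y, chi S y * b y)) := by
      intro ω
      rw [← parseval]
      refine Finset.sum_congr rfl fun S _ => ?_
      rw [hshift]
      ring
    rw [Finset.sum_congr rfl fun ω _ => this ω, Finset.sum_comm]
    refine Finset.sum_congr rfl fun S _ => ?_
    exact (Finset.sum_mul _ _ _).symm
  rw [h1, ← Finset.add_sum_erase _ _ (Finset.mem_univ (∅ : Finset ι))]
  have h2 : (∑ ω, chi ∅ (e ω)) * ((∑ x, chi ∅ x * a x) * (∑ y, chi ∅ y * b y)) =
      Fintype.card Ω * ((∑ x, a x) * ∑ y, b y) := by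
    simp only [chi_empty, one_mul, Finset.sum_const, Finset.card_univ, nsmul_eq_mul, mul_one]
  rw [h2, add_sub_cancel_left]
  have hε : 0 ≤ ε * Fintype.card Ω := mul_nonneg hε0 (Nat.cast_nonneg _)
  have h3 : ∀ S ∈ (univ : Finset (Finset ι)).erase ∅,
      (∑ ω, chi S (e ω)) * ((∑ x, chi S x * a x) * (∑ y, chi S y * b y)) ≤
      ε * Fintype.card Ω * (((∑ x, chi S x * a x) * (∑ x, chi S x * a x) +
        (∑ y, chi S y * b y) * (∑ y, chi S y * b y)) / 2) := by
    intro S hS
    have h4 := he S (Finset.nonempty_iff_ne_empty.2 (Finset.ne_of_mem_erase hS))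
    set A := ∑ x, chi S x * a x
    set B := ∑ y, chi S y * b y
    calc (∑ ω, chi S (e ω)) * (A * B) ≤ |∑ ω, chi S (e ω)| * |A * B| := by
          rw [← abs_mul]; exact le_abs_self _
      _ ≤ ε * Fintype.card Ω * ((A * A + B * B) / 2) := by
          refine mul_le_mul h4 ?_ (abs_nonneg _) hε
          rw [abs_le]
          constructor <;> nlinarith [sq_nonneg (A - B), sq_nonneg (A + B)]
  refine (Finset.sum_le_sum h3).trans ?_
  rw [← Finset.mul_sum, ← Finset.sum_div, Finset.sum_add_distrib]
  refine mul_le_mul_of_nonneg_left ?_ hε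
  have h5 : ∑ S ∈ (univ : Finset (Finset ι)).erase ∅,
      (∑ x, chi S x * a x) * (∑ x, chi S x * a x) ≤ 2 ^ Fintype.card ι * ∑ x, a x ^ 2 := by
    refine (Finset.sum_le_sum_of_subset_of_nonneg (Finset.subset_univ _)
      fun S _ _ => mul_self_nonneg _).trans (le_of_eq ?_)
    rw [parseval]
    congr 1
    exact Finset.sum_congr rfl fun x _ => (sq (a x)).symm
  have h6 : ∑ S ∈ (univ : Finset (Finset ι)).erase ∅,
      (∑ x, chi S x * b x) * (∑ x, chi S x * b x) ≤ 2 ^ Fintype.card ι * ∑ x, b x ^ 2 := by
    refine (Finset.sum_le_sum_of_subset_of_nonneg (Finset.subset_univ _)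
      fun S _ _ => mul_self_nonneg _).trans (le_of_eq ?_)
    rw [parseval]
    congr 1
    exact Finset.sum_congr rfl fun x _ => (sq (b x)).symm
  linarith

end

end Pool.Agent.H532R2.MC
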