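import Pool.Agent.H532R2.MC.Isolate
import Pool.Agent.H532R2.MC.Der

/-!
# The complexity of the functions with small bias
-/

namespace Pool.Agent.H532R2.MC

open Finset

section

variable {ν : ℕ}

/-- The value of an affine form. -/
def lin (r : Row ν) (w : Fin ν → Bool) : Bool :=
  ((List.finRange ν).map fun i => r.1 i && w i).foldr xor r.2

theorem sg_lin (r : Row ν) (w : Fin ν → Bool) : sg (lin r w) = rsg r w := by
  have key : ∀ (l : List (Fin ν)), sg ((l.map fun i => r.1 i && w i).foldr xor r.2) =
      sg r.2 * (l.map fun i => sg (r.1 i && w i)).prod := by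
    intro l
    induction l with
    | nil => simp
    | cons a l ih =>
      rw [List.map_cons, List.foldr_cons, sg_xor, ih, List.map_cons, List.prod_cons]
      ring
  unfold lin rsg
  rw [key, ← List.ofFn_eq_map, List.prod_ofFn]

theorem ze_eq_one {r : Row ν} {w : Fin ν → Bool} : ze r w = 1 ↔ lin r w = false := by
  unfold ze
  rw [← sg_lin]
  cases lin r w <;> simp [sg]

theorem vars_mem (i : Fin ν) : (fun (w : Fin ν → Bool) => w i) ∈ vars ν := ⟨i, rfl⟩

theorem cst_const (hν : 0 < ν) (b : Bool) : Cst (vars ν) (fun _ => b) 1 := by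
  cases b
  · exact Cst.false (vars_mem ⟨0, hν⟩)
  · exact Cst.true (vars_mem ⟨0, hν⟩)

theorem cst_lin (hν : 0 < ν) (r : Row ν) : Cst (vars ν) (lin r) (3 * ν + 1) := by
  have key : ∀ (l : List (Fin ν)), Cst (vars ν)
      (fun w => (l.map fun i => r.1 i && w i).foldr xor r.2) (3 * l.length + 1) := by
    intro l
    induction l with
    | nil => exact cst_const hν r.2
    | cons a l ih =>
      simp only [List.map_cons, List.foldr_cons]
      cases h : r.1 a
      · refine (ih.mono subset_rfl ?_).congr fun w => ?_
        · rw [List.length_cons]; omega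
        · simp
      · refine (((Cst.of_mem (vars_mem a)).xor ih).mono subset_rfl ?_).congr fun w => ?_
        · rw [List.length_cons]; omega
        · simp
  have := key (List.finRange ν)
  rwa [List.length_finRange] at this

theorem hf_iff {i : Fin (ν + 1)} {A : Fin (ν + 2) → Row ν} {w : Fin ν → Bool} :
    hf (i, A) w = true ↔ ∀ j : Fin (ν + 2), (j : ℕ) < i + 2 → lin (A j) w = false := by
  unfold hf
  rw [decide_eq_true_iff]
  constructor
  · intro h j hj
    rw [← ze_eq_one]
    have h1 := ze_sq (A j) w
    have h2 : ze (A j) w * (ze (A j) w - 1) = 0 := by linear_combination h1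
    rcases mul_eq_zero.1 h2 with h3 | h3
    · exfalso
      have h4 : ind i A w = 0 := by
        unfold ind
        refine Finset.prod_eq_zero (Finset.mem_univ j) ?_
        rw [if_pos hj, h3]
      rw [h4] at h
      norm_num at h
    · linarith
  · intro h
    unfold ind
    refine Finset.prod_eq_one fun j _ => ?_
    split_ifs with hj
    · exact ze_eq_one.2 (h j hj)
    · rfl

theorem cst_hf (hν : 0 < ν) (h : Hash ν) :
    Cst (vars ν) (hf h) ((ν + 2) * (3 * ν + 2) + 1) := by
  classical
  obtain ⟨i, A⟩ := h
  have h1 : ∀ j ∈ (univ : Finset (Fin (ν + 2))), Cst (vars ν)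
      (fun w => if (j : ℕ) < i + 2 then !(lin (A j) w) else true) (3 * ν + 1) := by
    intro j _
    split_ifs
    · exact (cst_lin hν (A j)).not
    · exact (cst_const hν true).mono subset_rfl (by omega)
  refine (Cst.bigAnd (g := hf (i, A)) (univ : Finset (Fin (ν + 2))) (cst_const hν true) h1
    fun w => ?_).mono subset_rfl ?_
  · rw [hf_iff]
    constructor
    · intro h j _
      split_ifs with hj
      · rw [h j hj]; rfl
      · rfl
    · intro h j hj
      have := h j (Finset.mem_univ j)
      rw [if_pos hj] at this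
      simpa using this
  · rw [Finset.card_univ, Fintype.card_fin]

theorem cst_bf (hν : 0 < ν) (c : Base ν) :
    Cst (vars ν) (bf c) ((ν + 2) * (3 * ν + 2) + 1) := by
  obtain ⟨b, h⟩ := c
  cases b
  · exact ((cst_const hν false).mono subset_rfl (by omega)).congr fun w => by simp [bf]
  · exact (cst_hf hν h).congr fun w => by simp [bf]

theorem cst_ef (hν : 0 < ν) {t : ℕ} (ω : Fin t → Base ν) :
    Cst (vars ν) (ef ω) (t * ((ν + 2) * (3 * ν + 2) + 4) + 1) := by
  have key : ∀ l : List (Base ν), Cst (vars ν)
      (fun w => (l.map fun c => bf c w).foldr xor false)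
      (l.length * ((ν + 2) * (3 * ν + 2) + 4) + 1) := by
    intro l
    induction l with
    | nil => exact (cst_const hν false).mono subset_rfl (by simp)
    | cons a l ih =>
      simp only [List.map_cons, List.foldr_cons]
      refine ((cst_bf hν a).xor ih).mono subset_rfl ?_
      rw [List.length_cons]
      ring_nf
      omega
  have h := key (List.ofFn ω)
  rw [List.length_ofFn] at h
  refine h.congr fun w => ?_
  unfold ef
  rw [List.map_ofFn]
  rfl

/-- A function and a shifted copy of it. -/
theorem cst_glue {x e : BF ν} {a b : ℕ} (hx : Cst (vars ν) x a) (he : Cst (vars ν) e b) :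
    Cst (vars (ν + 1)) (fun w => x (Fin.tail w) ^^ (w 0 && e (Fin.tail w))) (a + b + 4) := by
  have h0 : ∀ g ∈ vars ν, (fun w : Fin (ν + 1) → Bool => g (Fin.tail w)) ∈ vars (ν + 1) := by
    rintro _ ⟨i, rfl⟩
    exact ⟨i.succ, rfl⟩
  have h1 := hx.precomp (fun w : Fin (ν + 1) → Bool => Fin.tail w) h0
  have h2 := he.precomp (fun w : Fin (ν + 1) → Bool => Fin.tail w) h0
  exact (h1.xor ((Cst.of_mem (vars_mem (0 : Fin (ν + 1)))).and h2)).mono subset_rfl (by omega)

end

end Pool.Agent.H532R2.MC
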