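import Pool.Agent.H532R2.MC.Fourier

/-!
# Functions of small complexity with small bias

A random affine hash function isolates an element of every nonempty set with probability
`Ω(1 / ν)`. The exclusive or of many independent such functions has small bias.
-/

namespace Pool.Agent.H532R2.MC

open Finset

section

variable {ν : ℕ}

/-- The affine forms in `ν` variables. -/
abbrev Row (ν : ℕ) : Type := (Fin ν → Bool) × Bool

/-- The sign of the value of an affine form. -/
def rsg (r : Row ν) (w : Fin ν → Bool) : ℝ := sg r.2 * ∏ i, sg (r.1 i && w i)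

theorem sum_sg : ∑ b : Bool, sg b = 0 := by simp [sg]

theorem sum_rsg (w : Fin ν → Bool) : ∑ r : Row ν, rsg r w = 0 := by
  unfold rsg
  rw [Fintype.sum_prod_type, Finset.sum_comm]
  simp only [← Finset.mul_sum]
  rw [← Finset.sum_mul, sum_sg, zero_mul]

theorem sum_rsg_mul {w w' : Fin ν → Bool} (h : w ≠ w') :
    ∑ r : Row ν, rsg r w * rsg r w' = 0 := by
  obtain ⟨i, hi⟩ : ∃ i, w i ≠ w' i := by
    by_contra hcon
    push Not at hcon
    exact h (funext hcon)
  have h1 : ∀ r : Row ν, rsg r w * rsg r w' = ∏ i, (sg (r.1 i && w i) * sg (r.1 i && w' i)) := by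
    intro r
    unfold rsg
    rw [Finset.prod_mul_distrib]
    have := sg_sq r.2
    linear_combination (∏ i, sg (r.1 i && w i)) * (∏ i, sg (r.1 i && w' i)) * this
  simp only [h1]
  rw [Fintype.sum_prod_type, Finset.sum_comm]
  refine Finset.sum_eq_zero fun b _ => ?_
  have h2 := Finset.prod_univ_sum (fun _ : Fin ν => (univ : Finset Bool))
    (fun i b => sg (b && w i) * sg (b && w' i))
  rw [Fintype.piFinset_univ] at h2
  show ∑ A : Fin ν → Bool, ∏ i, (sg (A i && w i) * sg (A i && w' i)) = 0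
  rw [← h2]
  refine Finset.prod_eq_zero (Finset.mem_univ i) ?_
  cases h3 : w i <;> cases h4 : w' i <;> simp_all [sg]

theorem rsg_sq (r : Row ν) (w : Fin ν → Bool) : rsg r w * rsg r w = 1 := by
  unfold rsg
  have h1 := sg_sq r.2
  have h2 : (∏ i, sg (r.1 i && w i)) * (∏ i, sg (r.1 i && w i)) = 1 := by
    rw [← Finset.prod_mul_distrib]
    exact Finset.prod_eq_one fun i _ => sg_sq _
  linear_combination (∏ i, sg (r.1 i && w i)) * (∏ i, sg (r.1 i && w i)) * h1 + h2

/-- The indicator that the affine form vanishes. -/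
noncomputable def ze (r : Row ν) (w : Fin ν → Bool) : ℝ := (1 + rsg r w) / 2

theorem card_row_pos : (0 : ℝ) < Fintype.card (Row ν) := by
  exact_mod_cast Fintype.card_pos

theorem sum_ze (w : Fin ν → Bool) : ∑ r : Row ν, ze r w = Fintype.card (Row ν) / 2 := by
  unfold ze
  rw [← Finset.sum_div, Finset.sum_add_distrib, sum_rsg, Finset.sum_const, Finset.card_univ,
    nsmul_eq_mul, mul_one, add_zero]

theorem sum_ze_mul {w w' : Fin ν → Bool} (h : w ≠ w') :
    ∑ r : Row ν, ze r w * ze r w' = Fintype.card (Row ν) / 4 := by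
  unfold ze
  have h1 : ∀ r : Row ν, (1 + rsg r w) / 2 * ((1 + rsg r w') / 2) =
      (1 + rsg r w + rsg r w' + rsg r w * rsg r w') / 4 := by intro r; ring
  simp only [h1]
  rw [← Finset.sum_div, Finset.sum_add_distrib, Finset.sum_add_distrib, Finset.sum_add_distrib,
    sum_rsg, sum_rsg, sum_rsg_mul h, Finset.sum_const, Finset.card_univ, nsmul_eq_mul, mul_one]
  ring

theorem ze_sq (r : Row ν) (w : Fin ν → Bool) : ze r w * ze r w = ze r w := by
  unfold ze
  have := rsg_sq r w
  linear_combination this / 4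

/-- The hash functions: at level `i` the first `i + 2` affine forms are used. -/
abbrev Hash (ν : ℕ) : Type := Fin (ν + 1) × (Fin (ν + 2) → Row ν)

/-- The product of the indicators. -/
noncomputable def ind (i : Fin (ν + 1)) (A : Fin (ν + 2) → Row ν) (w : Fin ν → Bool) : ℝ :=
  ∏ j : Fin (ν + 2), if (j : ℕ) < i + 2 then ze (A j) w else 1

theorem prod_ite_const (i : Fin (ν + 1)) (a : ℝ) (b : ℝ) :
    ∏ j : Fin (ν + 2), (if (j : ℕ) < i + 2 then b * a else b) =
      b ^ (ν + 2) * a ^ ((i : ℕ) + 2) := by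
  have h1 : ∀ j : Fin (ν + 2), (if (j : ℕ) < i + 2 then b * a else b) =
      b * (if (j : ℕ) < i + 2 then a else 1) := by
    intro j; split_ifs <;> simp
  simp only [h1]
  rw [Finset.prod_mul_distrib, Finset.prod_const, Finset.card_univ, Fintype.card_fin,
    Finset.prod_ite, Finset.prod_const, Finset.prod_const_one, mul_one]
  congr 2
  have h2 : (univ.filter fun j : Fin (ν + 2) => (j : ℕ) < i + 2).card = (i : ℕ) + 2 := by
    have := i.2
    rw [Fin.card_filter_val_lt]
    omega
  exact h2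

theorem sum_ind (i : Fin (ν + 1)) (w : Fin ν → Bool) :
    ∑ A : Fin (ν + 2) → Row ν, ind i A w =
      (Fintype.card (Row ν) : ℝ) ^ (ν + 2) * (1 / 2) ^ ((i : ℕ) + 2) := by
  unfold ind
  have h := Finset.prod_univ_sum (fun _ : Fin (ν + 2) => (univ : Finset (Row ν)))
    (fun j r => if (j : ℕ) < i + 2 then ze r w else (1 : ℝ))
  rw [Fintype.piFinset_univ] at h
  rw [← h, ← prod_ite_const]
  refine Finset.prod_congr rfl fun j _ => ?_
  split_ifs
  · rw [sum_ze]; ring
  · simp

theorem sum_ind_mul (i : Fin (ν + 1)) {w w' : Fin ν → Bool} (hw : w ≠ w') :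
    ∑ A : Fin (ν + 2) → Row ν, ind i A w * ind i A w' =
      (Fintype.card (Row ν) : ℝ) ^ (ν + 2) * (1 / 4) ^ ((i : ℕ) + 2) := by
  have h0 : ∀ A : Fin (ν + 2) → Row ν, ind i A w * ind i A w' =
      ∏ j : Fin (ν + 2), if (j : ℕ) < i + 2 then ze (A j) w * ze (A j) w' else 1 := by
    intro A
    unfold ind
    rw [← Finset.prod_mul_distrib]
    refine Finset.prod_congr rfl fun j _ => ?_
    split_ifs <;> simp
  simp only [h0]
  have h := Finset.prod_univ_sum (fun _ : Fin (ν + 2) => (univ : Finset (Row ν)))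
    (fun j r => if (j : ℕ) < i + 2 then ze r w * ze r w' else (1 : ℝ))
  rw [Fintype.piFinset_univ] at h
  rw [← h, ← prod_ite_const]
  refine Finset.prod_congr rfl fun j _ => ?_
  split_ifs
  · rw [sum_ze_mul hw]; ring
  · simp

theorem ind_sq (i : Fin (ν + 1)) (A : Fin (ν + 2) → Row ν) (w : Fin ν → Bool) :
    ind i A w * ind i A w = ind i A w := by
  unfold ind
  rw [← Finset.prod_mul_distrib]
  refine Finset.prod_congr rfl fun j _ => ?_
  split_ifs
  · exact ze_sq _ _
  · simp

open Classical in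
/-- The function computed by a hash function: all its affine forms vanish. -/
noncomputable def hf (h : Hash ν) (w : Fin ν → Bool) : Bool := decide (ind h.1 h.2 w = 1)

theorem ind_eq (i : Fin (ν + 1)) (A : Fin (ν + 2) → Row ν) (w : Fin ν → Bool) :
    ind i A w = if hf (i, A) w then 1 else 0 := by
  unfold hf
  by_cases h : ind i A w = 1
  · simp [h]
  · simp only [h, decide_false]
    have h1 := ind_sq i A w
    have h2 : ind i A w * (ind i A w - 1) = 0 := by linear_combination h1
    rcases mul_eq_zero.1 h2 with h3 | h3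
    · simp [h3]
    · exact absurd (by linarith) h

theorem chi_hf (S : Finset (Fin ν → Bool)) (i : Fin (ν + 1)) (A : Fin (ν + 2) → Row ν) :
    chi S (hf (i, A)) ≤ 1 - 2 * (2 * (∑ w ∈ S, ind i A w) - (∑ w ∈ S, ind i A w) ^ 2) := by
  have h1 : ∑ w ∈ S, ind i A w = ((S.filter fun w => hf (i, A) w = true).card : ℝ) := by
    rw [Finset.sum_congr rfl fun w _ => ind_eq i A w, Finset.sum_ite, Finset.sum_const_zero,
      Finset.sum_const, nsmul_eq_mul, mul_one, add_zero]
  have h2 : chi S (hf (i, A)) = (-1) ^ (S.filter fun w => hf (i, A) w = true).card := by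
    unfold chi sg
    rw [Finset.prod_ite, Finset.prod_const_one, mul_one, Finset.prod_const]
  rw [h1, h2]
  generalize (S.filter fun w => hf (i, A) w = true).card = m
  rcases Nat.even_or_odd m with hm | hm
  · rw [hm.neg_one_pow]
    rcases Nat.eq_zero_or_pos m with rfl | h0
    · norm_num
    · have h3 : 2 ≤ m := by
        rcases hm with ⟨k, hk⟩
        omega
      have h4 : (2 : ℝ) ≤ m := by exact_mod_cast h3
      nlinarith
  · rw [hm.neg_one_pow]
    nlinarith [sq_nonneg ((m : ℝ) - 1)]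

/-- Isolation at the right level. -/
theorem level_bound (S : Finset (Fin ν → Bool)) (i : Fin (ν + 1)) (h1 : 2 ^ (i : ℕ) ≤ S.card)
    (h2 : S.card ≤ 2 ^ ((i : ℕ) + 1)) :
    ∑ A : Fin (ν + 2) → Row ν, chi S (hf (i, A)) ≤
      (Fintype.card (Row ν) : ℝ) ^ (ν + 2) * (1 - 3 / 8) := by
  set R : ℝ := (Fintype.card (Row ν) : ℝ) ^ (ν + 2) with hR
  have hR0 : 0 < R := by rw [hR]; exact pow_pos card_row_pos _
  set a : ℝ := S.card * (1 / 2) ^ ((i : ℕ) + 2) with ha
  have hcardR : ∑ _A : Fin (ν + 2) → Row ν, (1 : ℝ) = R := by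
    rw [Finset.sum_const, Finset.card_univ, nsmul_eq_mul, mul_one, Fintype.card_fun,
      Fintype.card_fin, hR]
    push_cast
    rfl
  have e1 : ∑ A : Fin (ν + 2) → Row ν, ∑ w ∈ S, ind i A w = R * a := by
    rw [Finset.sum_comm, Finset.sum_congr rfl fun w _ => sum_ind i w, Finset.sum_const,
      nsmul_eq_mul, ha]
    ring
  have e2 : ∑ A : Fin (ν + 2) → Row ν, (∑ w ∈ S, ind i A w) ^ 2 ≤ R * (a + a ^ 2) := by
    have : ∀ A : Fin (ν + 2) → Row ν, (∑ w ∈ S, ind i A w) ^ 2 =
        ∑ w ∈ S, ∑ w' ∈ S, ind i A w * ind i A w' := by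
      intro A
      rw [sq, Finset.sum_mul_sum]
    simp only [this]
    rw [Finset.sum_comm]
    have e3 : ∀ w ∈ S, ∑ A : Fin (ν + 2) → Row ν, ∑ w' ∈ S, ind i A w * ind i A w' ≤
        R * (1 / 2) ^ ((i : ℕ) + 2) + S.card * (R * (1 / 4) ^ ((i : ℕ) + 2)) := by
      intro w hw
      rw [Finset.sum_comm, ← Finset.add_sum_erase _ _ hw]
      refine add_le_add (le_of_eq ?_) ?_
      · rw [Finset.sum_congr rfl fun A _ => ind_sq i A w, sum_ind]
      · refine (Finset.sum_le_sum fun w' hw' => le_of_eq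
          (sum_ind_mul i (Finset.ne_of_mem_erase hw').symm)).trans ?_
        rw [Finset.sum_const, nsmul_eq_mul]
        refine mul_le_mul_of_nonneg_right ?_ (by positivity)
        exact_mod_cast Finset.card_erase_le
    refine (Finset.sum_le_sum e3).trans (le_of_eq ?_)
    rw [Finset.sum_const, nsmul_eq_mul, ha]
    have : (1 / 4 : ℝ) ^ ((i : ℕ) + 2) = (1 / 2) ^ ((i : ℕ) + 2) * (1 / 2) ^ ((i : ℕ) + 2) := by
      rw [← mul_pow]; norm_num
    rw [this]
    ring
  have e4 : ∑ A : Fin (ν + 2) → Row ν, chi S (hf (i, A)) ≤ R * (1 - 2 * (a - a ^ 2)) := by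
    refine (Finset.sum_le_sum fun A _ => chi_hf S i A).trans ?_
    rw [Finset.sum_sub_distrib, hcardR, ← Finset.mul_sum, Finset.sum_sub_distrib,
      ← Finset.mul_sum, e1]
    linarith
  refine e4.trans (mul_le_mul_of_nonneg_left ?_ hR0.le)
  have h3 : (1 : ℝ) / 4 ≤ a := by
    rw [ha]
    have : (2 : ℝ) ^ (i : ℕ) ≤ S.card := by exact_mod_cast h1
    calc (1 : ℝ) / 4 = 2 ^ (i : ℕ) * (1 / 2) ^ ((i : ℕ) + 2) := by
          rw [pow_add, ← mul_assoc, ← mul_pow]; norm_num
      _ ≤ _ := mul_le_mul_of_nonneg_right this (by positivity)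
  have h4 : a ≤ 1 / 2 := by
    rw [ha]
    have : (S.card : ℝ) ≤ 2 ^ ((i : ℕ) + 1) := by exact_mod_cast h2
    calc (S.card : ℝ) * (1 / 2) ^ ((i : ℕ) + 2) ≤ 2 ^ ((i : ℕ) + 1) * (1 / 2) ^ ((i : ℕ) + 2) :=
          mul_le_mul_of_nonneg_right this (by positivity)
      _ = 1 / 2 := by
          rw [show (i : ℕ) + 2 = (i + 1) + 1 from rfl, pow_succ (1 / 2 : ℝ), ← mul_assoc, ← mul_pow]
          norm_num
  nlinarith

/-- The random functions: a hash function or zero. -/
abbrev Base (ν : ℕ) : Type := Bool × Hash ν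

/-- The function of a random choice. -/
noncomputable def bf (c : Base ν) (w : Fin ν → Bool) : Bool := c.1 && hf c.2 w

theorem chi_sq (S : Finset (Fin ν → Bool)) (x : (Fin ν → Bool) → Bool) :
    chi S x * chi S x = 1 := by
  unfold chi
  rw [← Finset.prod_mul_distrib]
  exact Finset.prod_eq_one fun i _ => sg_sq _

theorem chi_le_one (S : Finset (Fin ν → Bool)) (x : (Fin ν → Bool) → Bool) : chi S x ≤ 1 := by
  nlinarith [chi_sq S x]

theorem neg_one_le_chi (S : Finset (Fin ν → Bool)) (x : (Fin ν → Bool) → Bool) :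
    -1 ≤ chi S x := by
  nlinarith [chi_sq S x]

theorem sum_bf (S : Finset (Fin ν → Bool)) :
    ∑ c : Base ν, chi S (bf c) = ∑ h : Hash ν, (1 + chi S (hf h)) := by
  rw [Fintype.sum_prod_type, Fintype.sum_bool, ← Finset.sum_add_distrib]
  refine Finset.sum_congr rfl fun h _ => ?_
  have h1 : bf (true, h) = hf h := by funext w; simp [bf]
  have h2 : bf (false, h) = fun _ => false := by funext w; simp [bf]
  rw [h1, h2, add_comm]
  congr 1
  simp [chi, sg]

theorem card_base : (Fintype.card (Base ν) : ℝ) =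
    2 * ((ν + 1) * (Fintype.card (Row ν) : ℝ) ^ (ν + 2)) := by
  rw [Fintype.card_prod, Fintype.card_prod, Fintype.card_bool, Fintype.card_fin, Fintype.card_fun,
    Fintype.card_fin]
  push_cast
  ring

theorem base_nonneg (S : Finset (Fin ν → Bool)) : 0 ≤ ∑ c : Base ν, chi S (bf c) := by
  rw [sum_bf]
  exact Finset.sum_nonneg fun h _ => by linarith [neg_one_le_chi S (hf h)]

theorem base_bound (S : Finset (Fin ν → Bool)) (hS : S.Nonempty) :
    ∑ c : Base ν, chi S (bf c) ≤ (1 - 3 / (16 * (ν + 1))) * Fintype.card (Base ν) := by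
  rw [sum_bf, card_base, Fintype.sum_prod_type]
  set R : ℝ := (Fintype.card (Row ν) : ℝ) ^ (ν + 2) with hR
  have hR0 : 0 < R := by rw [hR]; exact pow_pos card_row_pos _
  have hcardR : ∑ _A : Fin (ν + 2) → Row ν, (1 : ℝ) = R := by
    rw [Finset.sum_const, Finset.card_univ, nsmul_eq_mul, mul_one, Fintype.card_fun,
      Fintype.card_fin, hR]
    push_cast
    rfl
  have hlog : Nat.log 2 S.card < ν + 1 := by
    have h1 : S.card ≤ 2 ^ ν := by
      refine (Finset.card_le_univ S).trans (le_of_eq ?_)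
      rw [Fintype.card_fun, Fintype.card_bool, Fintype.card_fin]
    have h2 := Nat.log_mono_right (b := 2) h1
    rw [Nat.log_pow (by norm_num)] at h2
    omega
  have hS0 : S.card ≠ 0 := hS.card_pos.ne'
  let i : Fin (ν + 1) := ⟨Nat.log 2 S.card, hlog⟩
  have hi : ∑ A : Fin (ν + 2) → Row ν, (1 + chi S (hf (i, A))) ≤ R * (2 - 3 / 8) := by
    rw [Finset.sum_add_distrib, hcardR]
    have := level_bound S i (Nat.pow_log_le_self 2 hS0)
      (Nat.lt_pow_succ_log_self (by norm_num) _).le
    linarith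
  have hall : ∀ j : Fin (ν + 1), ∑ A : Fin (ν + 2) → Row ν, (1 + chi S (hf (j, A))) ≤ R * 2 := by
    intro j
    rw [Finset.sum_add_distrib, hcardR]
    have := Finset.sum_le_sum fun A (_ : A ∈ (univ : Finset (Fin (ν + 2) → Row ν))) =>
      chi_le_one S (hf (j, A))
    rw [hcardR] at this
    linarith
  rw [← Finset.add_sum_erase _ _ (Finset.mem_univ i)]
  have h3 : ∑ j ∈ univ.erase i, ∑ A : Fin (ν + 2) → Row ν, (1 + chi S (hf (j, A))) ≤
      ν * (R * 2) := by
    refine (Finset.sum_le_sum fun j _ => hall j).trans (le_of_eq ?_)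
    rw [Finset.sum_const, nsmul_eq_mul, Finset.card_erase_of_mem (Finset.mem_univ i),
      Finset.card_univ, Fintype.card_fin]
    simp
  have h4 : (1 - 3 / (16 * ((ν : ℝ) + 1))) * (2 * ((ν + 1) * R)) =
      R * (2 - 3 / 8) + ν * (R * 2) := by
    have : (ν : ℝ) + 1 ≠ 0 := by positivity
    field_simp
    ring
  rw [h4]
  exact add_le_add hi h3

/-- The exclusive or of `t` random functions. -/
noncomputable def ef {t : ℕ} (ω : Fin t → Base ν) (w : Fin ν → Bool) : Bool :=
  (List.ofFn fun j => bf (ω j) w).foldr xor false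

theorem sg_foldr (l : List Bool) : sg (l.foldr xor false) = (l.map sg).prod := by
  induction l with
  | nil => simp [sg]
  | cons a l ih => rw [List.foldr_cons, sg_xor, ih, List.map_cons, List.prod_cons]

theorem chi_ef {t : ℕ} (S : Finset (Fin ν → Bool)) (ω : Fin t → Base ν) :
    chi S (ef ω) = ∏ j, chi S (bf (ω j)) := by
  unfold chi ef
  rw [Finset.prod_comm]
  refine Finset.prod_congr rfl fun w _ => ?_
  rw [sg_foldr, List.map_ofFn, List.prod_ofFn]
  rfl

/-- The exclusive or of many random functions has small bias. -/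
theorem ef_bias (t : ℕ) (S : Finset (Fin ν → Bool)) (hS : S.Nonempty) :
    |∑ ω : Fin t → Base ν, chi S (ef ω)| ≤
      (1 - 3 / (16 * ((ν : ℝ) + 1))) ^ t * Fintype.card (Fin t → Base ν) := by
  have h1 : ∑ ω : Fin t → Base ν, chi S (ef ω) = (∑ c : Base ν, chi S (bf c)) ^ t := by
    simp only [chi_ef]
    have h := Finset.prod_univ_sum (fun _ : Fin t => (univ : Finset (Base ν)))
      (fun _ c => chi S (bf c))
    rw [Fintype.piFinset_univ] at h
    rw [← h, Finset.prod_const, Finset.card_univ, Fintype.card_fin]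
  have h2 := base_nonneg S
  rw [h1, abs_of_nonneg (pow_nonneg h2 t), Fintype.card_fun, Fintype.card_fin]
  push_cast
  rw [← mul_pow]
  exact pow_le_pow_left₀ h2 (base_bound S hS) t

end

end Pool.Agent.H532R2.MC
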