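import Pool.Agent.H532R2.MC.Der

/-!
# Lupanov's upper bound
-/

namespace Pool.Agent.H532R2.MC

open Finset

/-- Minterms. -/
theorem cst_minterm {n m : ℕ} (hn : 0 < n) (ι : Fin m → Fin n) (a : Fin m → Bool) {g : BF n}
    (hg : ∀ w, g w = true ↔ ∀ j, w (ι j) = a j) : Cst (vars n) g (m + 1) := by
  have h0 : Cst (vars n) (fun _ => true) 1 := Cst.true ⟨(⟨0, hn⟩ : Fin n), rfl⟩
  have h1 : ∀ j ∈ (univ : Finset (Fin m)), Cst (vars n)
      (fun w => if a j then w (ι j) else !(w (ι j))) 0 := by
    intro j _
    have h2 : Cst (vars n) (fun w => w (ι j)) 0 := Cst.of_mem ⟨ι j, rfl⟩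
    cases a j
    · simpa using h2.not
    · simpa using h2
  refine (Cst.bigAnd (g := g) univ h0 h1 fun w => ?_).mono subset_rfl ?_
  · rw [hg]
    refine forall_congr' fun j => ?_
    cases a j <;> simp
  · rw [Finset.card_univ, Fintype.card_fin]
    omega

section

variable {α D : Type} [DecidableEq D]

/-- All indicator functions of the members of a family which is closed under removing elements. -/
theorem comp_downset (q : α → D) (B : Set (α → Bool)) (hfalse : (fun _ => false) ∈ B)
    (hmin : ∀ d : D, (fun w => decide (q w = d)) ∈ B) (n : ℕ) :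
    ∀ 𝒜 : Finset (Finset D), 𝒜.card = n → (∀ A ∈ 𝒜, ∀ d ∈ A, A.erase d ∈ 𝒜) →
      Comp B ((fun (A : Finset D) (w : α) => decide (q w ∈ A)) '' 𝒜) n := by
  induction n with
  | zero =>
    intro 𝒜 h _
    rw [Finset.card_eq_zero] at h
    subst h
    simpa using Comp.empty B
  | succ n ih =>
    intro 𝒜 hcard hdown
    have hne : 𝒜.Nonempty := Finset.card_pos.1 (by omega)
    obtain ⟨A, hA, hmax⟩ := Finset.exists_max_image 𝒜 Finset.card hne
    have h1 := ih (𝒜.erase A) (by rw [Finset.card_erase_of_mem hA, hcard]; rfl) (by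
      intro A' hA' d hd
      rw [Finset.mem_erase] at hA' ⊢
      refine ⟨?_, hdown A' hA'.2 d hd⟩
      rintro rfl
      have h2 := hmax A' hA'.2
      have h3 := Finset.card_erase_lt_of_mem hd
      omega)
    have h2 : Cst (B ∪ (fun (A : Finset D) (w : α) => decide (q w ∈ A)) '' (𝒜.erase A))
        (fun w => decide (q w ∈ A)) 1 := by
      rcases A.eq_empty_or_nonempty with rfl | ⟨d, hd⟩
      · exact ((Cst.of_mem (Or.inl hfalse)).mono subset_rfl (by omega)).congr fun w => by simp
      · have h3 : (fun w => decide (q w ∈ A.erase d)) ∈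
            (fun (A : Finset D) (w : α) => decide (q w ∈ A)) '' (𝒜.erase A) := by
          refine ⟨A.erase d, ?_, rfl⟩
          rw [Finset.mem_coe, Finset.mem_erase]
          refine ⟨?_, hdown A hA d hd⟩
          intro h4
          have := Finset.card_erase_lt_of_mem hd
          rw [h4] at this
          exact lt_irrefl _ this
        refine ((Cst.of_mem (Or.inr h3)).or (Cst.of_mem (Or.inl (hmin d)))).congr fun w => ?_
        rw [Bool.eq_iff_iff, Bool.or_eq_true, decide_eq_true_iff, decide_eq_true_iff,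
          decide_eq_true_iff, Finset.mem_erase]
        constructor
        · rintro (⟨_, h⟩ | rfl)
          · exact h
          · exact hd
        · intro h
          by_cases hw : q w = d
          · exact Or.inr hw
          · exact Or.inl ⟨hw, h⟩
    refine (h1.comp h2).mono subset_rfl ?_ le_rfl
    rintro g ⟨A', hA', rfl⟩
    by_cases h : A' = A
    · subst h; exact Or.inr rfl
    · exact Or.inl ⟨A', by rw [Finset.mem_coe, Finset.mem_erase]; exact ⟨h, hA'⟩, rfl⟩

end

/-- A partition into groups of bounded size. -/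
theorem exists_grp (D : Type) [Fintype D] [DecidableEq D] {σ m : ℕ} (hσ : 0 < σ)
    (hm : Fintype.card D = m) : ∃ grp : D → Fin (m / σ + 1), ∀ i,
      (univ.filter fun d => grp d = i).card ≤ σ := by
  let e : D ≃ Fin m := Fintype.equivFinOfCardEq hm
  refine ⟨fun d => ⟨(e d : ℕ) / σ, ?_⟩, fun i => ?_⟩
  · have h1 := (e d).2
    exact Nat.lt_succ_of_le (Nat.div_le_div_right h1.le)
  · have h2 : (range σ).card = σ := Finset.card_range σ
    refine le_trans (Finset.card_le_card_of_injOn (t := range σ) (fun d => (e d : ℕ) % σ) ?_ ?_)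
      h2.le
    · intro d _
      simp only [Finset.coe_range, Set.mem_Iio]
      exact Nat.mod_lt _ hσ
    · intro d hd d' hd' h
      simp only [Finset.coe_filter, Finset.mem_univ, true_and] at hd hd'
      have h3 : (e d : ℕ) / σ = i := congrArg Fin.val hd
      have h4 : (e d' : ℕ) / σ = i := congrArg Fin.val hd'
      have h5 := Nat.div_add_mod (e d : ℕ) σ
      have h6 := Nat.div_add_mod (e d' : ℕ) σ
      have h7 : (e d : ℕ) % σ = (e d' : ℕ) % σ := h
      rw [h3, h7] at h5
      rw [h4] at h6
      exact e.injective (Fin.ext (h5.symm.trans h6))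

/-- Lupanov's upper bound. -/
theorem lupanov {r k σ : ℕ} (hσ : 0 < σ) (hr : 0 < r) (f : BF (r + k)) :
    Cst (vars (r + k)) f (2 ^ k * (k + 1) + 1 + (2 ^ k / σ + 1) * 2 ^ σ +
      2 ^ r * (2 ^ k / σ + 1 + r + 3)) := by
  classical
  have hn : 0 < r + k := by omega
  have hcard : Fintype.card (Fin k → Bool) = 2 ^ k := by
    rw [Fintype.card_fun, Fintype.card_bool, Fintype.card_fin]
  obtain ⟨grp, hgrp⟩ := exists_grp (Fin k → Bool) hσ hcard
  let p : (Fin (r + k) → Bool) → Fin r → Bool := fun w i => w (Fin.castAdd k i)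
  let q : (Fin (r + k) → Bool) → Fin k → Bool := fun w j => w (Fin.natAdd r j)
  -- the minterms of the second part
  let S1 : Set (BF (r + k)) := (fun (d : Fin k → Bool) w => decide (q w = d)) ''
    ((univ : Finset (Fin k → Bool)) : Set (Fin k → Bool))
  have h1 : Comp (vars (r + k)) S1 ((univ : Finset (Fin k → Bool)).card * (k + 1)) :=
    Comp.family univ fun d _ => cst_minterm hn (Fin.natAdd r) d fun w => by
      rw [decide_eq_true_iff]
      exact funext_iff
  have h2 : Comp (vars (r + k)) (S1 ∪ {fun _ => false}) (2 ^ k * (k + 1) + 1) := by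
    have := h1.union (Cst.false (f := fun w => w ⟨0, hn⟩) ⟨(⟨0, hn⟩ : Fin (r + k)), rfl⟩)
    rwa [Finset.card_univ, hcard] at this
  -- the functions of the groups
  let 𝒜 : Finset (Finset (Fin k → Bool)) := univ.biUnion fun i : Fin (2 ^ k / σ + 1) =>
    (univ.filter fun d => grp d = i).powerset
  have h𝒜 : 𝒜.card ≤ (2 ^ k / σ + 1) * 2 ^ σ := by
    refine Finset.card_biUnion_le.trans ?_
    refine (Finset.sum_le_card_nsmul _ _ (2 ^ σ) fun i _ => ?_).trans (le_of_eq ?_)
    · rw [Finset.card_powerset]
      exact Nat.pow_le_pow_right (by norm_num) (hgrp i)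
    · rw [Finset.card_univ, Fintype.card_fin, smul_eq_mul]
  let S2 : Set (BF (r + k)) := (fun (A : Finset (Fin k → Bool)) w => decide (q w ∈ A)) '' 𝒜
  have h3 : Comp (vars (r + k) ∪ (S1 ∪ {fun _ => false})) S2 𝒜.card := by
    refine comp_downset q _ (Or.inr (Or.inr rfl)) (fun d => Or.inr (Or.inl ⟨d, by simp, rfl⟩)) _ 𝒜
      rfl ?_
    intro A hA d _
    simp only [𝒜, Finset.mem_biUnion, Finset.mem_univ, true_and, Finset.mem_powerset] at hA ⊢
    obtain ⟨i, hi⟩ := hA
    exact ⟨i, (Finset.erase_subset _ _).trans hi⟩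
  have h4 : Comp (vars (r + k)) ((S1 ∪ {fun _ => false}) ∪ S2)
      (2 ^ k * (k + 1) + 1 + (2 ^ k / σ + 1) * 2 ^ σ) :=
    (h2.comp h3).mono subset_rfl subset_rfl (Nat.add_le_add_left h𝒜 _)
  -- the value of `f`
  let F : (Fin r → Bool) → (Fin k → Bool) → Bool := fun a d => f (Fin.append a d)
  have hF : ∀ w, f w = F (p w) (q w) := by
    intro w
    show f w = f (Fin.append _ _)
    congr 1
    funext i
    refine Fin.addCases (fun i => ?_) (fun i => ?_) i
    · rw [Fin.append_left]
    · rw [Fin.append_right]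
  let A' : Fin (2 ^ k / σ + 1) → (Fin r → Bool) → Finset (Fin k → Bool) := fun i a =>
    univ.filter fun d => grp d = i ∧ F a d = true
  have hA' : ∀ i a, A' i a ∈ 𝒜 := by
    intro i a
    simp only [𝒜, Finset.mem_biUnion, Finset.mem_univ, true_and, Finset.mem_powerset]
    refine ⟨i, fun d hd => ?_⟩
    simp only [A', Finset.mem_filter, Finset.mem_univ, true_and] at hd ⊢
    exact hd.1
  set B : Set (BF (r + k)) := vars (r + k) ∪ ((S1 ∪ {fun _ => false}) ∪ S2) with hB
  have hfalse : Cst B (fun _ => false) 0 := Cst.of_mem (Or.inr (Or.inl (Or.inr rfl)))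
  have h5 : ∀ a : Fin r → Bool, Cst B (fun w => decide (p w = a) && F a (q w))
      (2 ^ k / σ + 1 + r + 2) := by
    intro a
    have h6 : Cst B (fun w => decide (p w = a)) (r + 1) :=
      (cst_minterm hn (Fin.castAdd k) a fun w => by
        rw [decide_eq_true_iff]
        exact funext_iff).mono Set.subset_union_left le_rfl
    have h7 : Cst B (fun w => F a (q w)) ((2 ^ k / σ + 1) * (0 + 1) + 0) := by
      have h8 := Cst.bigOr (g := fun w => F a (q w)) (univ : Finset (Fin (2 ^ k / σ + 1)))
        (f := fun i w => decide (q w ∈ A' i a)) hfalse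
        (fun i _ => Cst.of_mem (Or.inr (Or.inr ⟨A' i a, hA' i a, rfl⟩))) (fun w => by
          simp only [A', Finset.mem_filter, Finset.mem_univ, true_and, decide_eq_true_eq]
          constructor
          · intro h
            exact ⟨grp (q w), rfl, h⟩
          · rintro ⟨i, _, h⟩
            exact h)
      rwa [Finset.card_univ, Fintype.card_fin] at h8
    exact (h6.and h7).mono subset_rfl (by omega)
  have h6 : Cst B f (2 ^ r * (2 ^ k / σ + 1 + r + 2 + 1) + 0) := by
    have h7 := Cst.bigOr (g := f) (univ : Finset (Fin r → Bool)) hfalse (fun a _ => h5 a)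
      (fun w => by
        rw [hF]
        simp only [Finset.mem_univ, true_and, Bool.and_eq_true, decide_eq_true_eq]
        constructor
        · intro h
          exact ⟨p w, rfl, h⟩
        · rintro ⟨a, rfl, h⟩
          exact h)
    rwa [Finset.card_univ, Fintype.card_fun, Fintype.card_bool, Fintype.card_fin] at h7
  exact (Comp.cst h4 h6).mono subset_rfl (by
    have : 2 ^ r * (2 ^ k / σ + 1 + r + 2 + 1) + 0 = 2 ^ r * (2 ^ k / σ + 1 + r + 3) := by ring
    omega)

end Pool.Agent.H532R2.MC
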