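import Pool.Agent.H524R2.Forster

/-!
# Lower bounds for the sign rank from weights which are small in spectral norm
-/

namespace Pool.Agent.H532R2.MC

open Matrix Finset Pool.Agent.H524R2

section

variable {X Y : Type*} [Fintype X] [Fintype Y] {d : ℕ}

/-- Vectors in general position. -/
theorem smooth_general (W : X → Y → ℝ) (u : X → Fin d → ℝ) (v : Y → Fin d → ℝ)
    (E : Finset (X × Y)) (γ Λ : ℝ) (hγ : 0 ≤ γ)
    (hsign : ∀ x y, 0 ≤ W x y * (u x ⬝ᵥ v y))
    (hE : ∀ x y, (x, y) ∉ E → γ ≤ |W x y|)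
    (hΛ : ∀ (U : X → Fin d → ℝ) (V : Y → Fin d → ℝ), (∀ x, U x ⬝ᵥ U x = 1) →
      (∀ y, V y ⬝ᵥ V y = 1) → ∑ x, ∑ y, W x y * (U x ⬝ᵥ V y) ≤ Λ)
    (hX : 0 < Fintype.card X) (hu : ∀ x, u x ≠ 0) (hv : ∀ y, v y ≠ 0)
    (σ : Fin d → Equiv.Perm X)
    (hσ : ∀ w, Matrix.det (Matrix.of fun j => u (σ j w)) ≠ 0) :
    γ * (Fintype.card X * Fintype.card Y) ≤ d * (Λ + γ * E.card) := by
  classical
  -- the bound with a loss of `ε`
  have main : ∀ ε : ℝ, 0 < ε → ε ≤ 1 →
      (1 - ε) * (γ * (Fintype.card X * Fintype.card Y)) ≤ d * (Λ + γ * E.card) := by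
    intro ε hε hε1
    obtain ⟨A, hA, hiso⟩ := exists_isotropic u hu σ hσ hX ε hε
    have hnA : ∀ x, 0 < nrm u A x := fun x => dot_self_pos (mulVec_ne_zero hA (hu x))
    let v' : Y → Fin d → ℝ := fun y => (A⁻¹)ᵀ *ᵥ v y
    have hdu : IsUnit A.det := isUnit_iff_ne_zero.2 hA
    have hv'0 : ∀ y, v' y ≠ 0 := by
      intro y
      refine mulVec_ne_zero ?_ (hv y)
      rw [Matrix.det_transpose]
      exact (Matrix.isUnit_nonsing_inv_det A hdu).ne_zero
    have hdot : ∀ x y, (A *ᵥ u x) ⬝ᵥ v' y = u x ⬝ᵥ v y := by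
      intro x y
      show (A *ᵥ u x) ⬝ᵥ ((A⁻¹)ᵀ *ᵥ v y) = _
      rw [Matrix.dotProduct_mulVec, Matrix.vecMul_transpose, Matrix.mulVec_mulVec,
        Matrix.nonsing_inv_mul A hdu, Matrix.one_mulVec]
    let a : X → ℝ := fun x => Real.sqrt (nrm u A x)
    let b : Y → ℝ := fun y => Real.sqrt (v' y ⬝ᵥ v' y)
    have ha : ∀ x, 0 < a x := fun x => Real.sqrt_pos.2 (hnA x)
    have hb : ∀ y, 0 < b y := fun y => Real.sqrt_pos.2 (dot_self_pos (hv'0 y))
    have ha2 : ∀ x, a x ^ 2 = nrm u A x := fun x => Real.sq_sqrt (hnA x).le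
    have hb2 : ∀ y, b y ^ 2 = v' y ⬝ᵥ v' y := fun y => Real.sq_sqrt (dot_self_pos (hv'0 y)).le
    let U : X → Fin d → ℝ := fun x => (a x)⁻¹ • (A *ᵥ u x)
    let V : Y → Fin d → ℝ := fun y => (b y)⁻¹ • v' y
    have hU1 : ∀ x, U x ⬝ᵥ U x = 1 := by
      intro x
      show ((a x)⁻¹ • (A *ᵥ u x)) ⬝ᵥ ((a x)⁻¹ • (A *ᵥ u x)) = 1
      rw [smul_dotProduct, dotProduct_smul]
      have : (A *ᵥ u x) ⬝ᵥ (A *ᵥ u x) = a x ^ 2 := (ha2 x).symm
      rw [this]
      have := (ha x).ne'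
      simp only [smul_eq_mul]
      field_simp
    have hV1 : ∀ y, V y ⬝ᵥ V y = 1 := by
      intro y
      show ((b y)⁻¹ • v' y) ⬝ᵥ ((b y)⁻¹ • v' y) = 1
      rw [smul_dotProduct, dotProduct_smul, ← hb2]
      have := (hb y).ne'
      simp only [smul_eq_mul]
      field_simp
    have hUV : ∀ x y, U x ⬝ᵥ V y = (a x)⁻¹ * (b y)⁻¹ * (u x ⬝ᵥ v y) := by
      intro x y
      show ((a x)⁻¹ • (A *ᵥ u x)) ⬝ᵥ ((b y)⁻¹ • v' y) = _
      rw [smul_dotProduct, dotProduct_smul, hdot]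
      simp only [smul_eq_mul]
      ring
    have hCS : ∀ x y, (U x ⬝ᵥ V y) ^ 2 ≤ 1 := by
      intro x y
      have := Finset.sum_mul_sq_le_sq_mul_sq univ (U x) (V y)
      have e1 : ∑ i, U x i ^ 2 = 1 := by
        rw [← hU1 x]; exact Finset.sum_congr rfl fun i _ => by ring
      have e2 : ∑ i, V y i ^ 2 = 1 := by
        rw [← hV1 y]; exact Finset.sum_congr rfl fun i _ => by ring
      rw [e1, e2, one_mul] at this
      exact this
    have hpos : ∀ x y, 0 ≤ W x y * (U x ⬝ᵥ V y) := by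
      intro x y
      rw [hUV]
      have h1 := hsign x y
      have h2 := inv_pos.2 (ha x)
      have h3 := inv_pos.2 (hb y)
      have : W x y * ((a x)⁻¹ * (b y)⁻¹ * (u x ⬝ᵥ v y))
          = (a x)⁻¹ * (b y)⁻¹ * (W x y * (u x ⬝ᵥ v y)) := by ring
      rw [this]
      positivity
    -- pointwise bound
    have hpt : ∀ x y, γ * (U x ⬝ᵥ V y) ^ 2 ≤
        W x y * (U x ⬝ᵥ V y) + if (x, y) ∈ E then γ else 0 := by
      intro x y
      have h2 := hCS x y
      by_cases hxy : (x, y) ∈ E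
      · rw [if_pos hxy]
        have := hpos x y
        nlinarith
      · rw [if_neg hxy, add_zero]
        have h3 : W x y * (U x ⬝ᵥ V y) = |W x y| * |U x ⬝ᵥ V y| := by
          rw [← abs_mul, abs_of_nonneg (hpos x y)]
        rw [h3, ← sq_abs (U x ⬝ᵥ V y)]
        have h4 : |U x ⬝ᵥ V y| ≤ 1 := by
          rw [← sq_abs] at h2
          nlinarith [abs_nonneg (U x ⬝ᵥ V y)]
        have h5 := hE x y hxy
        have h6 := abs_nonneg (U x ⬝ᵥ V y)
        nlinarith [mul_nonneg hγ h6, mul_le_mul_of_nonneg_right h5 h6,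
          mul_le_mul_of_nonneg_left h4 (mul_nonneg hγ h6)]
    have hsumE : ∑ x, ∑ y, (if (x, y) ∈ E then γ else 0) = γ * E.card := by
      rw [← Fintype.sum_prod_type' (fun x y => if (x, y) ∈ E then γ else 0)]
      have : ∀ p : X × Y, (if (p.1, p.2) ∈ E then γ else 0) = if p ∈ E then γ else 0 := by
        intro p; rfl
      simp only [this]
      rw [Finset.sum_ite_mem, Finset.univ_inter, Finset.sum_const, nsmul_eq_mul, mul_comm]
    have hsum : γ * ∑ x, ∑ y, (U x ⬝ᵥ V y) ^ 2 ≤ Λ + γ * E.card := by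
      rw [← hsumE, Finset.mul_sum]
      refine (Finset.sum_le_sum (g := fun x => ∑ y, (W x y * (U x ⬝ᵥ V y) +
        if (x, y) ∈ E then γ else 0)) fun x _ => ?_).trans ?_
      · rw [Finset.mul_sum]
        exact Finset.sum_le_sum fun y _ => hpt x y
      · simp only [Finset.sum_add_distrib]
        have := hΛ U V hU1 hV1
        linarith
    -- isotropy
    have hlow : ∀ y, (1 - ε) * Fintype.card X ≤ d * ∑ x, (U x ⬝ᵥ V y) ^ 2 := by
      intro y
      refine (hiso (V y) (hV1 y)).trans (le_of_eq ?_)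
      congr 1
      refine Finset.sum_congr rfl fun x _ => ?_
      have h1 : U x ⬝ᵥ V y = (a x)⁻¹ * ((A *ᵥ u x) ⬝ᵥ V y) := by
        show ((a x)⁻¹ • (A *ᵥ u x)) ⬝ᵥ V y = _
        rw [smul_dotProduct, smul_eq_mul]
      rw [h1, mul_pow, inv_pow, ha2]
      ring
    have hlow2 : (1 - ε) * (Fintype.card X * Fintype.card Y)
        ≤ d * ∑ x, ∑ y, (U x ⬝ᵥ V y) ^ 2 := by
      have := Finset.sum_le_sum (fun y (_ : y ∈ (univ : Finset Y)) => hlow y)
      rw [Finset.sum_const, Finset.card_univ, nsmul_eq_mul, ← Finset.mul_sum,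
        Finset.sum_comm] at this
      linarith
    have hd : (0 : ℝ) ≤ d := Nat.cast_nonneg d
    calc (1 - ε) * (γ * (Fintype.card X * Fintype.card Y))
        = γ * ((1 - ε) * (Fintype.card X * Fintype.card Y)) := by ring
      _ ≤ γ * (d * ∑ x, ∑ y, (U x ⬝ᵥ V y) ^ 2) := mul_le_mul_of_nonneg_left hlow2 hγ
      _ = d * (γ * ∑ x, ∑ y, (U x ⬝ᵥ V y) ^ 2) := by ring
      _ ≤ d * (Λ + γ * E.card) := mul_le_mul_of_nonneg_left hsum hd
  -- let `ε → 0`
  have h1 : Filter.Tendsto (fun ε : ℝ => (1 - ε) * (γ * (Fintype.card X * Fintype.card Y)))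
      (nhdsWithin 0 (Set.Ioi 0)) (nhds ((1 - 0) * (γ * (Fintype.card X * Fintype.card Y)))) := by
    refine Filter.Tendsto.mono_left ?_ nhdsWithin_le_nhds
    exact (Continuous.tendsto (by fun_prop) 0)
  have h2 : (1 - 0) * (γ * (Fintype.card X * Fintype.card Y)) ≤ d * (Λ + γ * E.card) := by
    refine le_of_tendsto h1 ?_
    filter_upwards [Ioc_mem_nhdsGT (show (0 : ℝ) < 1 by norm_num)] with ε hε
    exact main ε hε.1 hε.2
  linarith

end

open Polynomial in
/-- The weighted version of Forster's theorem (Razborov and Sherstov). -/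
theorem smooth_forster {N d : ℕ} {Y : Type*} [Fintype Y] (W : Fin N → Y → ℝ)
    (E : Finset (Fin N × Y)) (γ Λ : ℝ) (hγ : 0 ≤ γ)
    (u : Fin N → Fin d → ℝ) (v : Y → Fin d → ℝ)
    (hsign : ∀ x y, W x y ≠ 0 → 0 < W x y * (u x ⬝ᵥ v y))
    (hE : ∀ x y, (x, y) ∉ E → γ ≤ |W x y|)
    (hne : ∀ y, ∃ x, W x y ≠ 0)
    (hΛ : ∀ (U : Fin N → Fin d → ℝ) (V : Y → Fin d → ℝ), (∀ x, U x ⬝ᵥ U x = 1) →
      (∀ y, V y ⬝ᵥ V y = 1) → ∑ x, ∑ y, W x y * (U x ⬝ᵥ V y) ≤ Λ)
    (hd0 : 0 < d) (hd : d ≤ N) :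
    γ * (N * Fintype.card Y) ≤ d * (Λ + γ * E.card) := by
  have hN : 0 < N := hd0.trans_le hd
  have : NeZero N := ⟨hN.ne'⟩
  let σ : Fin d → Equiv.Perm (Fin N) := fun j => Equiv.addRight (Fin.castLE hd j)
  have hσinj : ∀ w, Function.Injective fun j => σ j w := by
    intro w j j' hjj
    simp only [σ, Equiv.coe_addRight] at hjj
    exact Fin.castLE_injective hd (add_left_cancel hjj)
  let p : Fin N → Fin d → ℝ := fun x i => ((x : ℕ) : ℝ) ^ (i : ℕ)
  have hp : ∀ w, Matrix.det (Matrix.of fun j => p (σ j w)) ≠ 0 := by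
    intro w
    have : (Matrix.of fun j => p (σ j w)) =
        Matrix.vandermonde fun j => (((σ j w : Fin N) : ℕ) : ℝ) := by
      ext i j; simp [p, Matrix.vandermonde]
    rw [this, Matrix.det_vandermonde_ne_zero_iff]
    intro j j' hjj
    have h1 : ((σ j w : Fin N) : ℕ) = ((σ j' w : Fin N) : ℕ) := by
      have h2 : (((σ j w : Fin N) : ℕ) : ℝ) = (((σ j' w : Fin N) : ℕ) : ℝ) := hjj
      exact_mod_cast h2
    exact hσinj w (Fin.ext h1)
  let P : Fin N → ℝ[X] := fun w =>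
    Matrix.det ((X : ℝ[X]) • (Matrix.of fun j => p (σ j w)).map C +
      (Matrix.of fun j => u (σ j w)).map C)
  have hP : ∀ w, P w ≠ 0 := by
    intro w h
    have := Polynomial.coeff_det_X_add_C_card (Matrix.of fun j => p (σ j w))
      (Matrix.of fun j => u (σ j w))
    change (P w).coeff _ = _ at this
    rw [h, Polynomial.coeff_zero] at this
    exact hp w this.symm
  have hPeval : ∀ w t, (P w).eval t =
      Matrix.det (Matrix.of fun j => (u (σ j w) + t • p (σ j w))) := by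
    intro w t
    have := RingHom.map_det (Polynomial.evalRingHom t)
      ((X : ℝ[X]) • (Matrix.of fun j => p (σ j w)).map C + (Matrix.of fun j => u (σ j w)).map C)
    rw [Polynomial.coe_evalRingHom] at this
    rw [this]
    congr 1
    ext i j
    simp
    ring
  have hev1 : ∀ᶠ t : ℝ in nhdsWithin 0 (Set.Ioi 0), ∀ w, (P w).eval t ≠ 0 := by
    rw [Filter.eventually_all]
    intro w
    have hfin : ((P w).roots.toFinset : Set ℝ).Finite := Finset.finite_toSet _
    have h1 : (((P w).roots.toFinset : Set ℝ) \ {0})ᶜ ∈ nhds (0 : ℝ) := by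
      refine (hfin.subset Set.sdiff_subset).isClosed.isOpen_compl.mem_nhds ?_
      simp
    filter_upwards [nhdsWithin_le_nhds h1, self_mem_nhdsWithin] with t ht ht0 hroot
    refine ht ⟨?_, ne_of_gt ht0⟩
    simp only [Finset.mem_coe, Multiset.mem_toFinset]
    exact (Polynomial.mem_roots (hP w)).2 hroot
  have hev2 : ∀ᶠ t : ℝ in nhdsWithin 0 (Set.Ioi 0),
      ∀ x y, W x y ≠ 0 → 0 < W x y * ((u x + t • p x) ⬝ᵥ v y) := by
    rw [Filter.eventually_all]
    intro x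
    rw [Filter.eventually_all]
    intro y
    by_cases hW : W x y = 0
    · exact Filter.Eventually.of_forall fun t h => absurd hW h
    · have hc : Filter.Tendsto (fun t : ℝ => W x y * ((u x + t • p x) ⬝ᵥ v y))
          (nhdsWithin 0 (Set.Ioi 0)) (nhds (W x y * ((u x + (0 : ℝ) • p x) ⬝ᵥ v y))) := by
        refine Filter.Tendsto.mono_left ?_ nhdsWithin_le_nhds
        refine Continuous.tendsto ?_ 0
        simp only [add_dotProduct, smul_dotProduct, smul_eq_mul]
        fun_prop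
      refine (hc.eventually (lt_mem_nhds ?_)).mono fun t ht _ => ht
      simpa using hsign x y hW
  obtain ⟨t, h1, h2⟩ := (hev1.and hev2).exists
  have hσ' : ∀ w, Matrix.det (Matrix.of fun j => (u (σ j w) + t • p (σ j w))) ≠ 0 := by
    intro w
    rw [← hPeval]
    exact h1 w
  have key := smooth_general W (fun x => u x + t • p x) v E γ Λ hγ ?_ hE hΛ (by simpa using hN)
    ?_ ?_ σ hσ'
  · simpa using key
  · intro x y
    by_cases hW : W x y = 0
    · rw [hW, zero_mul]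
    · exact (h2 x y hW).le
  · intro x hx
    let j : Fin d := ⟨0, hd0⟩
    have h3 := hσ' ((σ j).symm x)
    refine h3 (Matrix.det_eq_zero_of_row_eq_zero j fun i => ?_)
    rw [Matrix.of_apply, Equiv.apply_symm_apply]
    exact congrFun hx i
  · intro y hy
    obtain ⟨x, hx⟩ := hne y
    have := h2 x y hx
    rw [hy, dotProduct_zero, mul_zero] at this
    exact lt_irrefl _ this

end Pool.Agent.H532R2.MC
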