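import Pool.Agent.H532R2.MC.Fourier
import Pool.Agent.H532R2.MC.Smooth

/-!
# The weights for sign matrices containing small-bias shifts
-/

set_option linter.unusedSectionVars false

namespace Pool.Agent.H532R2.MC

open Finset Matrix

section

variable {ι : Type} [Fintype ι] [DecidableEq ι] {Ω : Type} [Fintype Ω]

/-- The shift of a truth table. -/
def shiftBy (c x : ι → Bool) : ι → Bool := fun i => x i ^^ c i

open Classical in
/-- The weights. -/
noncomputable def wt (e : Ω → ι → Bool) (E : Finset ((ι → Bool) × (ι → Bool)))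
    (x y : ι → Bool) : ℝ :=
  (∑ ω, if y = shiftBy (e ω) x then (1 : ℝ) else 0) / Fintype.card Ω -
    if (x, y) ∈ E then 0 else 1 / 2 ^ Fintype.card ι

theorem dot_le_one {d : ℕ} {a b : Fin d → ℝ} (ha : a ⬝ᵥ a = 1) (hb : b ⬝ᵥ b = 1) :
    a ⬝ᵥ b ≤ 1 := by
  have h := Finset.sum_mul_sq_le_sq_mul_sq univ a b
  have e1 : ∑ i, a i ^ 2 = 1 := by
    rw [← ha]; exact Finset.sum_congr rfl fun i _ => by ring
  have e2 : ∑ i, b i ^ 2 = 1 := by
    rw [← hb]; exact Finset.sum_congr rfl fun i _ => by ring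
  rw [e1, e2, one_mul] at h
  have h2 : (a ⬝ᵥ b) ^ 2 ≤ 1 := h
  nlinarith

theorem wt_norm (e : Ω → ι → Bool) (E : Finset ((ι → Bool) × (ι → Bool))) (ε : ℝ) (hε0 : 0 ≤ ε)
    (hΩ : 0 < Fintype.card Ω)
    (he : ∀ S : Finset ι, S.Nonempty → |∑ ω, chi S (e ω)| ≤ ε * Fintype.card Ω)
    {d : ℕ} (U V : (ι → Bool) → Fin d → ℝ) (hU : ∀ x, U x ⬝ᵥ U x = 1)
    (hV : ∀ y, V y ⬝ᵥ V y = 1) :
    ∑ x, ∑ y, wt e E x y * (U x ⬝ᵥ V y) ≤
      ε * 2 ^ Fintype.card ι + E.card / 2 ^ Fintype.card ι := by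
  classical
  set M : ℝ := 2 ^ Fintype.card ι with hM
  have hMpos : 0 < M := by positivity
  have hΩr : (0 : ℝ) < Fintype.card Ω := by exact_mod_cast hΩ
  have hcardX : (Fintype.card (ι → Bool) : ℝ) = M := by
    rw [hM, Fintype.card_fun, Fintype.card_bool]; push_cast; rfl
  -- the sum of the shifted products
  set T : ℝ := ∑ ω, ∑ x, U x ⬝ᵥ V (shiftBy (e ω) x) with hT
  have h1 : ∑ x, ∑ y, wt e E x y * (U x ⬝ᵥ V y) = T / Fintype.card Ω -
      (∑ x, ∑ y, U x ⬝ᵥ V y) / M + (∑ p ∈ E, U p.1 ⬝ᵥ V p.2) / M := by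
    have e1 : ∀ x y, wt e E x y * (U x ⬝ᵥ V y) =
        (∑ ω, if y = shiftBy (e ω) x then U x ⬝ᵥ V y else 0) / Fintype.card Ω -
        (U x ⬝ᵥ V y) / M + (if (x, y) ∈ E then (U x ⬝ᵥ V y) / M else 0) := by
      intro x y
      unfold wt
      rw [sub_mul, div_mul_eq_mul_div, Finset.sum_mul]
      have e2 : ∀ ω, (if y = shiftBy (e ω) x then (1 : ℝ) else 0) * (U x ⬝ᵥ V y) =
          if y = shiftBy (e ω) x then U x ⬝ᵥ V y else 0 := by
        intro ω; split_ifs <;> simp
      simp only [e2]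
      split_ifs with hE
      · ring
      · ring
    simp only [e1, Finset.sum_add_distrib, Finset.sum_sub_distrib, ← Finset.sum_div]
    have e3 : ∑ x, ∑ y, ∑ ω, (if y = shiftBy (e ω) x then U x ⬝ᵥ V y else 0) = T := by
      rw [hT, Finset.sum_comm' (s := univ) (t := fun _ => univ) (t' := univ) (s' := fun _ => univ)
        (by simp)]
      rw [Finset.sum_comm]
      have : ∀ x : ι → Bool, ∑ y, ∑ ω, (if y = shiftBy (e ω) x then U x ⬝ᵥ V y else 0) =
          ∑ ω, U x ⬝ᵥ V (shiftBy (e ω) x) := by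
        intro x
        rw [Finset.sum_comm]
        refine Finset.sum_congr rfl fun ω _ => ?_
        rw [Finset.sum_ite_eq' univ (shiftBy (e ω) x) (fun y => U x ⬝ᵥ V y)]
        simp
      simp only [this]
      rw [Finset.sum_comm]
    have e4 : ∑ x, ∑ y, (if (x, y) ∈ E then (U x ⬝ᵥ V y) / M else 0) =
        (∑ p ∈ E, U p.1 ⬝ᵥ V p.2) / M := by
      rw [← Fintype.sum_prod_type' (fun x y => if (x, y) ∈ E then (U x ⬝ᵥ V y) / M else 0)]
      have : ∀ p : (ι → Bool) × (ι → Bool), (if (p.1, p.2) ∈ E then (U p.1 ⬝ᵥ V p.2) / M else 0) =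
          if p ∈ E then (U p.1 ⬝ᵥ V p.2) / M else 0 := fun p => rfl
      simp only [this]
      rw [Finset.sum_ite_mem, Finset.univ_inter, ← Finset.sum_div]
    rw [e3, e4]
  have h2 : (∑ p ∈ E, U p.1 ⬝ᵥ V p.2) / M ≤ E.card / M := by
    refine div_le_div_of_nonneg_right ?_ hMpos.le
    refine (Finset.sum_le_sum fun p _ => dot_le_one (hU p.1) (hV p.2)).trans ?_
    rw [Finset.sum_const, nsmul_eq_mul, mul_one]
  have h3 : M * T - Fintype.card Ω * (∑ x, ∑ y, U x ⬝ᵥ V y) ≤ ε * Fintype.card Ω * (M * M) := by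
    have k1 : ∀ k : Fin d, M * ∑ ω, ∑ x, U x k * V (shiftBy (e ω) x) k -
        Fintype.card Ω * ((∑ x, U x k) * ∑ y, V y k) ≤
        ε * Fintype.card Ω * (M * ((∑ x, U x k ^ 2 + ∑ y, V y k ^ 2) / 2)) :=
      fun k => shift_scalar e ε hε0 he (fun x => U x k) (fun y => V y k)
    have k2 := Finset.sum_le_sum fun k (_ : k ∈ (univ : Finset (Fin d))) => k1 k
    have k3 : ∑ k : Fin d, (M * ∑ ω, ∑ x, U x k * V (shiftBy (e ω) x) k -
        Fintype.card Ω * ((∑ x, U x k) * ∑ y, V y k)) =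
        M * T - Fintype.card Ω * (∑ x, ∑ y, U x ⬝ᵥ V y) := by
      rw [Finset.sum_sub_distrib, ← Finset.mul_sum, ← Finset.mul_sum]
      congr 2
      · rw [hT, Finset.sum_comm]
        refine Finset.sum_congr rfl fun ω _ => ?_
        rw [Finset.sum_comm]
        rfl
      · simp only [Finset.sum_mul_sum, dotProduct]
        rw [Finset.sum_comm]
        refine Finset.sum_congr rfl fun x _ => ?_
        rw [Finset.sum_comm]
    have k4 : ∑ k : Fin d, ε * Fintype.card Ω * (M * ((∑ x, U x k ^ 2 + ∑ y, V y k ^ 2) / 2)) =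
        ε * Fintype.card Ω * (M * M) := by
      rw [← Finset.mul_sum, ← Finset.mul_sum, ← Finset.sum_div, Finset.sum_add_distrib]
      have k5 : ∑ k : Fin d, ∑ x, U x k ^ 2 = M := by
        rw [Finset.sum_comm]
        have : ∀ x, ∑ k, U x k ^ 2 = 1 := by
          intro x
          rw [← hU x]; exact Finset.sum_congr rfl fun i _ => by ring
        simp only [this]
        rw [Finset.sum_const, Finset.card_univ, nsmul_eq_mul, mul_one, hcardX]
      have k6 : ∑ k : Fin d, ∑ y, V y k ^ 2 = M := by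
        rw [Finset.sum_comm]
        have : ∀ y, ∑ k, V y k ^ 2 = 1 := by
          intro y
          rw [← hV y]; exact Finset.sum_congr rfl fun i _ => by ring
        simp only [this]
        rw [Finset.sum_const, Finset.card_univ, nsmul_eq_mul, mul_one, hcardX]
      rw [k5, k6]
      ring
    rw [k3, k4] at k2
    exact k2
  rw [h1]
  have h4 : T / Fintype.card Ω - (∑ x, ∑ y, U x ⬝ᵥ V y) / M ≤ ε * M := by
    have : T / Fintype.card Ω - (∑ x, ∑ y, U x ⬝ᵥ V y) / M =
        (M * T - Fintype.card Ω * (∑ x, ∑ y, U x ⬝ᵥ V y)) / (Fintype.card Ω * M) := by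
      field_simp
    rw [this, div_le_iff₀ (by positivity)]
    refine h3.trans (le_of_eq ?_)
    ring
  linarith

/-- The sign rank of a matrix whose entries are positive at the pairs `(x, x + e)` and negative
outside a small set `E` of pairs. -/
theorem sign_rank_shift (e : Ω → ι → Bool) (E : Finset ((ι → Bool) × (ι → Bool))) (ε : ℝ)
    (hε0 : 0 ≤ ε) (hΩ : 0 < Fintype.card Ω)
    (he : ∀ S : Finset ι, S.Nonempty → |∑ ω, chi S (e ω)| ≤ ε * Fintype.card Ω)
    (hE : ∀ ω x, (x, shiftBy (e ω) x) ∈ E)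
    {d : ℕ} (hd0 : 0 < d) (hd : d ≤ 2 ^ Fintype.card ι) (u v : (ι → Bool) → Fin d → ℝ)
    (hpos : ∀ ω x, 0 < u x ⬝ᵥ v (shiftBy (e ω) x))
    (hneg : ∀ x y, (x, y) ∉ E → u x ⬝ᵥ v y < 0) :
    (1 : ℝ) ≤ d * (ε + 2 * (E.card / (2 ^ Fintype.card ι * 2 ^ Fintype.card ι))) := by
  classical
  set M : ℝ := 2 ^ Fintype.card ι with hM
  have hMpos : 0 < M := by positivity
  have hΩr : (0 : ℝ) < Fintype.card Ω := by exact_mod_cast hΩ
  have hcard : Fintype.card (ι → Bool) = 2 ^ Fintype.card ι := by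
    rw [Fintype.card_fun, Fintype.card_bool]
  let eX : (ι → Bool) ≃ Fin (2 ^ Fintype.card ι) := Fintype.equivFinOfCardEq hcard
  -- values of the weights
  have hwE : ∀ x y, (x, y) ∉ E → wt e E x y = -(1 / M) := by
    intro x y hxy
    unfold wt
    rw [if_neg hxy, Finset.sum_eq_zero, zero_div, zero_sub]
    intro ω _
    rw [if_neg]
    rintro rfl
    exact hxy (hE ω x)
  have hwE' : ∀ x y, (x, y) ∈ E → wt e E x y ≠ 0 →
      0 < wt e E x y ∧ ∃ ω, y = shiftBy (e ω) x := by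
    intro x y hxy hne
    unfold wt at hne ⊢
    rw [if_pos hxy, sub_zero] at hne ⊢
    have h0 : 0 ≤ (∑ ω, if y = shiftBy (e ω) x then (1 : ℝ) else 0) :=
      Finset.sum_nonneg fun ω _ => by split_ifs <;> norm_num
    refine ⟨lt_of_le_of_ne (div_nonneg h0 hΩr.le) hne.symm, ?_⟩
    by_contra hcon
    push Not at hcon
    refine hne ?_
    rw [Finset.sum_eq_zero, zero_div]
    intro ω _
    rw [if_neg (hcon ω)]
  -- apply the weighted theorem
  let E' : Finset (Fin (2 ^ Fintype.card ι) × (ι → Bool)) :=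
    E.map (Equiv.prodCongr eX (Equiv.refl _)).toEmbedding
  have hE'mem : ∀ i y, (i, y) ∈ E' ↔ (eX.symm i, y) ∈ E := by
    intro i y
    simp only [E', Finset.mem_map_equiv]
    rfl
  have key := smooth_forster (N := 2 ^ Fintype.card ι) (Y := ι → Bool)
    (fun i y => wt e E (eX.symm i) y) E' (1 / M) (ε * M + E.card / M) (by positivity)
    (fun i => u (eX.symm i)) v ?_ ?_ ?_ ?_ hd0 hd
  · rw [hcard] at key
    have hE'c : E'.card = E.card := Finset.card_map _
    rw [hE'c] at key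
    push_cast at key
    rw [← hM] at key
    have k1 : 1 / M * (M * M) = M := by field_simp
    rw [k1] at key
    have k2 : (d : ℝ) * (ε * M + E.card / M + 1 / M * E.card) =
        M * (d * (ε + 2 * (E.card / (M * M)))) := by
      field_simp
      ring
    rw [k2] at key
    exact le_of_mul_le_mul_left (by linarith) hMpos
  · intro i y hne
    by_cases hxy : (eX.symm i, y) ∈ E
    · obtain ⟨h1, ω, rfl⟩ := hwE' _ _ hxy hne
      exact mul_pos h1 (hpos ω _)
    · rw [hwE _ _ hxy]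
      exact mul_pos_of_neg_of_neg (neg_lt_zero.2 (by positivity)) (hneg _ _ hxy)
  · intro i y hxy
    rw [hE'mem] at hxy
    rw [hwE _ _ hxy, abs_neg, abs_of_pos (by positivity)]
  · intro y
    obtain ⟨ω⟩ := Fintype.card_pos_iff.1 hΩ
    refine ⟨eX (shiftBy (e ω) y), ?_⟩
    have hy : y = shiftBy (e ω) (shiftBy (e ω) y) := by
      funext i
      simp [shiftBy]
    rw [Equiv.symm_apply_apply]
    unfold wt
    rw [if_pos (by rw [show (shiftBy (e ω) y, y) = (shiftBy (e ω) y, shiftBy (e ω)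
      (shiftBy (e ω) y)) by rw [← hy]]; exact hE ω _), sub_zero]
    refine (div_pos ?_ hΩr).ne'
    refine Finset.sum_pos' (fun ω _ => by split_ifs <;> norm_num) ⟨ω, Finset.mem_univ _, ?_⟩
    rw [if_pos hy]
    norm_num
  · intro U V hU hV
    have h1 := wt_norm e E ε hε0 hΩ he (fun x => U (eX x)) V (fun x => hU _) hV
    refine le_trans (le_of_eq ?_) h1
    rw [← Equiv.sum_comp eX.symm (fun x => ∑ y, wt e E x y * (U (eX x) ⬝ᵥ V y))]
    refine Finset.sum_congr rfl fun i _ => ?_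
    simp

end

end Pool.Agent.H532R2.MC
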