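import Pool.Agent.H532R2.MC.Params
import Pool.Agent.H532R2.MC.Count
import Pool.Agent.H532R2.MC.Lupanov
import Pool.Agent.H532R2.MC.HashCost
import Pool.Agent.H532R2.MC.Weights

/-!
# The sign rank of the Minimum Circuit Size Problem
-/

namespace Pool.Agent.H532R2.MC

open Finset Matrix

/-- The function whose truth table consists of the truth tables of `x` and `y`. -/
def glue {ν : ℕ} (x y : BF ν) : BF (ν + 1) := fun w =>
  if w 0 then y (Fin.tail w) else x (Fin.tail w)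

theorem glue_injective {ν : ℕ} {x y x' y' : BF ν} (h : glue x y = glue x' y') :
    x = x' ∧ y = y' := by
  constructor
  · funext w
    have := congrFun h (Fin.cons false w)
    simpa [glue] using this
  · funext w
    have := congrFun h (Fin.cons true w)
    simpa [glue] using this

theorem glue_shift {ν : ℕ} (x e : BF ν) : glue x (shiftBy e x) =
    fun w => x (Fin.tail w) ^^ (w 0 && e (Fin.tail w)) := by
  funext w
  unfold glue shiftBy
  cases w 0 <;> simp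

/-- The shifted pairs have small circuits. -/
theorem yes_size {ν ℓ s : ℕ} (hℓ : 11 ≤ ℓ) (h1 : ν < 2 ^ ℓ) (h2 : 66 * ℓ + 10 ≤ ν)
    (hs : 3 * 2 ^ (ν + 1) ≤ 5 * (ν + 1) * s) (x : BF ν)
    (ω : Fin (2 ^ (ν - 4 * ℓ)) → Base ν) : SizeLE (ν + 1) (glue x (shiftBy (ef ω) x)) s := by
  rw [sizeLE_iff, glue_shift]
  have hx : Cst (vars ν) x (2 ^ (3 * ℓ) * (3 * ℓ + 1) + 1 +
      (2 ^ (3 * ℓ) / (ν - 6 * ℓ) + 1) * 2 ^ (ν - 6 * ℓ) +
      2 ^ (ν - 3 * ℓ) * (2 ^ (3 * ℓ) / (ν - 6 * ℓ) + 1 + (ν - 3 * ℓ) + 3)) := by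
    obtain ⟨r, rfl⟩ : ∃ r, ν = r + 3 * ℓ := ⟨ν - 3 * ℓ, by omega⟩
    rw [Nat.add_sub_cancel]
    exact lupanov (by omega) (by omega) x
  have he := cst_ef (ν := ν) (by omega) ω
  refine (cst_glue hx he).mono subset_rfl ?_
  have h3 := size_bound hℓ h1 h2
  have h4 : 6 * 2 ^ ν = 3 * 2 ^ (ν + 1) := by rw [pow_succ]; ring
  rw [h4] at h3
  exact Nat.le_of_mul_le_mul_left (h3.trans hs) (by omega)

theorem card_exceptions {ν s : ℕ} (E : Finset (BF ν × BF ν))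
    (hE : ∀ p ∈ E, SizeLE (ν + 1) (glue p.1 p.2) s) : E.card ≤ (small (ν + 1) s).card := by
  classical
  refine Finset.card_le_card_of_injOn (fun p => glue p.1 p.2) ?_ ?_
  · intro p hp
    exact Finset.mem_coe.2 (Finset.mem_filter.2 ⟨Finset.mem_univ _, hE p hp⟩)
  · intro p _ p' _ h
    obtain ⟨h1, h2⟩ := glue_injective h
    exact Prod.ext h1 h2

/-- The lower bound for the functions of `ν + 1` variables. -/
theorem core {ν s₁ s₂ d : ℕ} (hν : 1024 < ν + 1) (hs₁ : 3 * 2 ^ (ν + 1) ≤ 5 * (ν + 1) * s₁)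
    (h12 : s₁ ≤ s₂) (hs₂ : 10 * (ν + 1) * s₂ ≤ 9 * 2 ^ (ν + 1)) (u v : BF ν → Fin d → ℝ)
    (hyes : ∀ x y, SizeLE (ν + 1) (glue x y) s₁ → 0 < u x ⬝ᵥ v y)
    (hno : ∀ x y, ¬SizeLE (ν + 1) (glue x y) s₂ → u x ⬝ᵥ v y < 0) :
    2 ^ (2 ^ (ν + 1) / (ν + 1) ^ 6 + 1) ≤ d := by
  classical
  obtain ⟨ℓ, hℓ, hℓ1, hℓ2, hℓ3⟩ := log_facts (ν := ν) (by omega)
  have hbig := pow_seven_le (ν + 1) (by omega)
  -- the bias
  have hbias := bias_small hν hℓ1 hℓ hℓ3
  have hexc := few_exceptions hν hs₂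
  have hXle : 2 ^ (ν + 1) / (ν + 1) ^ 6 ≤ 2 ^ (ν + 1) / 1024 := by
    refine Nat.div_le_div_left ?_ (by norm_num)
    calc 1024 ≤ ν + 1 := hν.le
      _ ≤ (ν + 1) ^ 6 := Nat.le_self_pow (by norm_num) _
  generalize 2 ^ (ν + 1) / (ν + 1) ^ 6 = X at hbias hexc hXle ⊢
  have hcardι : Fintype.card (Fin ν → Bool) = 2 ^ ν := by
    rw [Fintype.card_fun, Fintype.card_bool, Fintype.card_fin]
  by_cases hd : d ≤ 2 ^ 2 ^ ν
  swap
  · refine le_trans (Nat.pow_le_pow_right (by norm_num) ?_) (not_le.1 hd).le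
    have h2 : 2 ^ (ν + 1) = 2 * 2 ^ ν := by rw [pow_succ]; ring
    have h3 : 1024 ≤ 2 ^ ν := by
      calc 1024 = 2 ^ 10 := by norm_num
        _ ≤ 2 ^ ν := Nat.pow_le_pow_right (by norm_num) (by omega)
    omega
  have hyes' : ∀ (ω : Fin (2 ^ (ν - 4 * ℓ)) → Base ν) (x : BF ν),
      SizeLE (ν + 1) (glue x (shiftBy (ef ω) x)) s₁ := fun ω x =>
    yes_size hℓ hℓ2 hℓ3 hs₁ x ω
  have hmono : ∀ f : BF (ν + 1), SizeLE (ν + 1) f s₁ → SizeLE (ν + 1) f s₂ := by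
    rintro f ⟨L, t, h1, h2, h3⟩
    exact ⟨L, t, h1, h2, h3.trans h12⟩
  have hd0 : 0 < d := by
    rcases Nat.eq_zero_or_pos d with rfl | h
    · exfalso
      have h1 := hyes _ _ (hyes' (fun _ => (false, (0, fun _ => (fun _ => false, false))))
        (fun _ => false))
      simp [dotProduct] at h1
    · exact h
  let E : Finset (BF ν × BF ν) := univ.filter fun p => SizeLE (ν + 1) (glue p.1 p.2) s₂
  set t := 2 ^ (ν - 4 * ℓ) with ht
  have hΩ : 0 < Fintype.card (Fin t → Base ν) := Fintype.card_pos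
  have hε0 : (0 : ℝ) ≤ (1 - 3 / (16 * ((ν : ℝ) + 1))) ^ t := by
    refine pow_nonneg ?_ _
    have : 3 / (16 * ((ν : ℝ) + 1)) ≤ 1 := by
      rw [div_le_one (by positivity)]
      have : (0 : ℝ) ≤ ν := Nat.cast_nonneg ν
      linarith
    linarith
  have key := sign_rank_shift (ι := Fin ν → Bool) (Ω := Fin t → Base ν) (fun ω => ef ω) E
    ((1 - 3 / (16 * ((ν : ℝ) + 1))) ^ t) hε0 hΩ (fun S hS => ef_bias t S hS)
    (fun ω x => Finset.mem_filter.2 ⟨Finset.mem_univ _, hmono _ (hyes' ω x)⟩) hd0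
    (by rw [hcardι]; exact hd) u v (fun ω x => hyes _ _ (hyes' ω x))
    (fun x y hxy => hno x y fun h => hxy (Finset.mem_filter.2 ⟨Finset.mem_univ _, h⟩))
  -- the exceptions
  have hEcard : E.card * 2 ^ (X + 4) ≤ 2 ^ 2 ^ (ν + 1) := by
    have h1 : E.card ≤ 4 * s₂ * (s₂ + 1) * 2 ^ ((ν + 1) * s₂) := by
      refine (card_exceptions E fun p hp => (Finset.mem_filter.1 hp).2).trans (shannon ?_ ?_)
      · refine le_trans ?_ h12
        have h3 : 5 * (ν + 1) * (ν + 1) ≤ 5 * (ν + 1) * s₁ := by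
          refine le_trans ?_ hs₁
          have h4 : (ν + 1) * (ν + 1) ≤ (ν + 1) ^ 6 := by
            rw [← sq]; exact Nat.pow_le_pow_right (by omega) (by norm_num)
          have h5 : 5 * (ν + 1) * (ν + 1) = 5 * ((ν + 1) * (ν + 1)) := by ring
          rw [h5]
          omega
        exact Nat.le_of_mul_le_mul_left h3 (by omega)
      · have h3 : 10 * 1024 * s₂ ≤ 10 * (ν + 1) * s₂ :=
          Nat.mul_le_mul_right _ (Nat.mul_le_mul_left 10 hν.le)
        omega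
    exact (Nat.mul_le_mul_right _ h1).trans hexc
  have hE2 : 2 * ((E.card : ℝ) / (2 ^ Fintype.card (Fin ν → Bool) *
      2 ^ Fintype.card (Fin ν → Bool))) ≤ 1 / 2 ^ (X + 2) := by
    rw [hcardι, ← pow_add, ← two_mul, ← pow_succ', mul_div_assoc']
    rw [div_le_div_iff₀ (by positivity) (by positivity), one_mul]
    have h1 : ((E.card * 2 ^ (X + 4) : ℕ) : ℝ) ≤ ((2 ^ 2 ^ (ν + 1) : ℕ) : ℝ) := by
      exact_mod_cast hEcard
    push_cast at h1
    refine le_trans ?_ h1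
    have h2 : (0 : ℝ) ≤ (E.card : ℝ) * 2 ^ (X + 2) :=
      mul_nonneg (Nat.cast_nonneg _) (pow_nonneg (by norm_num) _)
    have h3 : (E.card : ℝ) * 2 ^ (X + 4) = 4 * ((E.card : ℝ) * 2 ^ (X + 2)) := by
      rw [show X + 4 = (X + 2) + 2 from rfl, pow_add (2 : ℝ) (X + 2) 2]
      ring
    rw [h3, mul_assoc]
    exact mul_le_mul_of_nonneg_right (by norm_num) h2
  have hfinal : (1 : ℝ) ≤ d * (1 / 2 ^ (X + 1)) := by
    refine key.trans ?_
    refine mul_le_mul_of_nonneg_left ?_ (Nat.cast_nonneg d)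
    refine (add_le_add hbias hE2).trans (le_of_eq ?_)
    rw [pow_succ (2 : ℝ) (X + 1)]
    field_simp
    norm_num
  rw [mul_one_div, le_div_iff₀ (by positivity), one_mul] at hfinal
  exact_mod_cast hfinal

end Pool.Agent.H532R2.MC
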