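import Mathlib

/-!
# Numerical estimates
-/

namespace Pool.Agent.H532R2.MC

theorem lin_le_pow (ℓ : ℕ) (h : 11 ≤ ℓ) : 66 * ℓ + 10 ≤ 2 ^ (ℓ - 1) := by
  induction ℓ, h using Nat.le_induction with
  | base => norm_num
  | succ ℓ h ih =>
    obtain ⟨j, rfl⟩ := Nat.exists_eq_add_of_le h
    simp only [show 11 + j + 1 - 1 = (11 + j - 1) + 1 by omega, pow_succ]
    omega

theorem log_facts {ν : ℕ} (h : 1024 ≤ ν) :
    ∃ ℓ, 11 ≤ ℓ ∧ 2 ^ (ℓ - 1) ≤ ν ∧ ν < 2 ^ ℓ ∧ 66 * ℓ + 10 ≤ ν := by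
  refine ⟨Nat.log 2 ν + 1, ?_, ?_, ?_, ?_⟩
  · have : 10 ≤ Nat.log 2 ν := (Nat.le_log_iff_pow_le (by norm_num) (by omega)).2 (by norm_num; omega)
    omega
  · rw [Nat.add_sub_cancel]
    exact Nat.pow_log_le_self 2 (by omega)
  · exact Nat.lt_pow_succ_log_self (by norm_num) ν
  · have h1 : 10 ≤ Nat.log 2 ν :=
      (Nat.le_log_iff_pow_le (by norm_num) (by omega)).2 (by norm_num; omega)
    refine (lin_le_pow (Nat.log 2 ν + 1) (by omega)).trans ?_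
    rw [Nat.add_sub_cancel]
    exact Nat.pow_log_le_self 2 (by omega)

/-- The total size of the circuits for the shifted pairs. -/
theorem size_bound {ν ℓ : ℕ} (hℓ : 11 ≤ ℓ) (h1 : ν < 2 ^ ℓ) (h2 : 66 * ℓ + 10 ≤ ν) :
    5 * (ν + 1) * ((2 ^ (3 * ℓ) * (3 * ℓ + 1) + 1 +
      (2 ^ (3 * ℓ) / (ν - 6 * ℓ) + 1) * 2 ^ (ν - 6 * ℓ) +
      2 ^ (ν - 3 * ℓ) * (2 ^ (3 * ℓ) / (ν - 6 * ℓ) + 1 + (ν - 3 * ℓ) + 3)) +
      (2 ^ (ν - 4 * ℓ) * ((ν + 2) * (3 * ν + 2) + 4) + 1) + 4) ≤ 6 * 2 ^ ν := by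
  obtain ⟨σ, hσ⟩ : ∃ σ, ν = σ + 6 * ℓ := ⟨ν - 6 * ℓ, by omega⟩
  have hσ1 : 1 < σ := by omega
  have e1 : ν - 6 * ℓ = σ := by omega
  have e2 : ν - 3 * ℓ = σ + 3 * ℓ := by omega
  have e3 : ν - 4 * ℓ = σ + 2 * ℓ := by omega
  rw [e1, e2, e3]
  -- powers
  set P := 2 ^ ℓ with hP
  have hP1 : 2048 ≤ P := by
    calc 2048 = 2 ^ 11 := by norm_num
      _ ≤ 2 ^ ℓ := Nat.pow_le_pow_right (by norm_num) hℓ
  set Z := 2 ^ σ with hZ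
  have p3 : 2 ^ (3 * ℓ) = P ^ 3 := by rw [hP, ← pow_mul, mul_comm]
  have p4 : 2 ^ (σ + 3 * ℓ) = Z * P ^ 3 := by rw [pow_add, p3]
  have p5 : 2 ^ (σ + 2 * ℓ) = Z * P ^ 2 := by rw [pow_add, hP, ← pow_mul, mul_comm ℓ 2]
  have p6 : 2 ^ ν = Z * P ^ 6 := by rw [hσ, pow_add, hP, ← pow_mul, mul_comm ℓ 6]
  rw [p3, p4, p5, p6]
  set c := P ^ 3 / σ with hc
  have hcσ : c * σ ≤ P ^ 3 := Nat.div_mul_le_self _ _
  have hc1 : c + 1 ≤ P ^ 3 := by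
    have h3 : c ≤ P ^ 3 / 2 := Nat.div_le_div_left hσ1 (by norm_num)
    have h4 : 2 ≤ P ^ 3 := by
      calc 2 ≤ P := by omega
        _ ≤ P ^ 3 := Nat.le_self_pow (by norm_num) P
    omega
  have hℓP : 3 * ℓ + 1 ≤ P := by
    have := lin_le_pow ℓ hℓ
    have h5 : 2 ^ (ℓ - 1) ≤ P := Nat.pow_le_pow_right (by norm_num) (by omega)
    omega
  have hZP : 2 * P ^ 4 ≤ Z * P ^ 4 := by
    refine Nat.mul_le_mul_right _ ?_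
    calc 2 = 2 ^ 1 := by norm_num
      _ ≤ 2 ^ σ := Nat.pow_le_pow_right (by norm_num) hσ1.le
  have hνP : ν + 1 ≤ P := h1
  -- the single terms
  have t1 : P ^ 3 * (3 * ℓ + 1) ≤ P ^ 4 := by
    calc P ^ 3 * (3 * ℓ + 1) ≤ P ^ 3 * P := Nat.mul_le_mul_left _ hℓP
      _ = P ^ 4 := by ring
  have t2 : (c + 1) * Z ≤ Z * P ^ 3 := by
    rw [mul_comm]; exact Nat.mul_le_mul_left _ hc1
  have t3 : (ν + 2) * (3 * ν + 2) + 4 ≤ 4 * P ^ 2 := by nlinarith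
  have t4 : 1 + (σ + 3 * ℓ) + 3 ≤ P := by omega
  have hP34 : Z * P ^ 3 * 2048 ≤ Z * P ^ 4 := by
    calc Z * P ^ 3 * 2048 ≤ Z * P ^ 3 * P := Nat.mul_le_mul_left _ hP1
      _ = Z * P ^ 4 := by ring
  have hZ1 : 1 ≤ Z := Nat.one_le_two_pow
  have hP4 : 6 ≤ P ^ 4 := by
    calc 6 ≤ P := by omega
      _ ≤ P ^ 4 := Nat.le_self_pow (by norm_num) P
  -- everything except the main term
  have rest : P ^ 3 * (3 * ℓ + 1) + 1 + (c + 1) * Z + Z * P ^ 3 * (1 + (σ + 3 * ℓ) + 3) +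
      (Z * P ^ 2 * ((ν + 2) * (3 * ν + 2) + 4) + 1) + 4 ≤ 8 * (Z * P ^ 4) := by
    have u1 : Z * P ^ 3 * (1 + (σ + 3 * ℓ) + 3) ≤ Z * P ^ 4 := by
      calc Z * P ^ 3 * (1 + (σ + 3 * ℓ) + 3) ≤ Z * P ^ 3 * P := Nat.mul_le_mul_left _ t4
        _ = Z * P ^ 4 := by ring
    have u2 : Z * P ^ 2 * ((ν + 2) * (3 * ν + 2) + 4) ≤ 4 * (Z * P ^ 4) := by
      calc Z * P ^ 2 * ((ν + 2) * (3 * ν + 2) + 4) ≤ Z * P ^ 2 * (4 * P ^ 2) :=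
            Nat.mul_le_mul_left _ t3
        _ = _ := by ring
    omega
  have main : 10 * (ν + 1) * (Z * P ^ 3 * c) ≤ 11 * (Z * P ^ 6) := by
    have u3 : 10 * (ν + 1) ≤ 11 * σ := by omega
    calc 10 * (ν + 1) * (Z * P ^ 3 * c) ≤ 11 * σ * (Z * P ^ 3 * c) := Nat.mul_le_mul_right _ u3
      _ = 11 * (Z * P ^ 3 * (c * σ)) := by ring
      _ ≤ 11 * (Z * P ^ 3 * P ^ 3) := Nat.mul_le_mul_left _ (Nat.mul_le_mul_left _ hcσ)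
      _ = _ := by ring
  have rest2 : 10 * (ν + 1) * (8 * (Z * P ^ 4)) ≤ Z * P ^ 6 := by
    calc 10 * (ν + 1) * (8 * (Z * P ^ 4)) ≤ 10 * P * (8 * (Z * P ^ 4)) :=
          Nat.mul_le_mul_right _ (Nat.mul_le_mul_left _ hνP)
      _ = 80 * (Z * P ^ 5) := by ring
      _ ≤ P * (Z * P ^ 5) := Nat.mul_le_mul_right _ (by omega)
      _ = _ := by ring
  have total : P ^ 3 * (3 * ℓ + 1) + 1 + (c + 1) * Z + Z * P ^ 3 * (c + 1 + (σ + 3 * ℓ) + 3) +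
      (Z * P ^ 2 * ((ν + 2) * (3 * ν + 2) + 4) + 1) + 4 ≤ Z * P ^ 3 * c + 8 * (Z * P ^ 4) := by
    have u4 : Z * P ^ 3 * (c + 1 + (σ + 3 * ℓ) + 3) =
        Z * P ^ 3 * c + Z * P ^ 3 * (1 + (σ + 3 * ℓ) + 3) := by ring
    rw [u4]
    omega
  have key : 10 * (ν + 1) * (P ^ 3 * (3 * ℓ + 1) + 1 + (c + 1) * Z +
      Z * P ^ 3 * (c + 1 + (σ + 3 * ℓ) + 3) +
      (Z * P ^ 2 * ((ν + 2) * (3 * ν + 2) + 4) + 1) + 4) ≤ 12 * (Z * P ^ 6) := by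
    refine (Nat.mul_le_mul_left _ total).trans ?_
    rw [mul_add]
    omega
  have e5 : 10 * (ν + 1) * (P ^ 3 * (3 * ℓ + 1) + 1 + (c + 1) * Z +
      Z * P ^ 3 * (c + 1 + (σ + 3 * ℓ) + 3) +
      (Z * P ^ 2 * ((ν + 2) * (3 * ν + 2) + 4) + 1) + 4) =
      2 * (5 * (ν + 1) * (P ^ 3 * (3 * ℓ + 1) + 1 + (c + 1) * Z +
      Z * P ^ 3 * (c + 1 + (σ + 3 * ℓ) + 3) +
      (Z * P ^ 2 * ((ν + 2) * (3 * ν + 2) + 4) + 1) + 4)) := by ring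
  rw [e5] at key
  omega

theorem pow_seven_le (m : ℕ) (h : 1024 ≤ m) : 1024 * m ^ 6 ≤ 2 ^ m := by
  induction m, h using Nat.le_induction with
  | base =>
    calc 1024 * 1024 ^ 6 = 2 ^ 70 := by norm_num
      _ ≤ 2 ^ 1024 := Nat.pow_le_pow_right (by norm_num) (by norm_num)
  | succ m h ih =>
    have h1 : (m + 1) ^ 6 ≤ 2 * m ^ 6 := by
      obtain ⟨j, rfl⟩ := Nat.exists_eq_add_of_le h
      have hm : 1024 * (1024 + j) ^ 5 ≤ (1024 + j) ^ 6 := by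
        calc 1024 * (1024 + j) ^ 5 ≤ (1024 + j) * (1024 + j) ^ 5 :=
              Nat.mul_le_mul_right _ (by omega)
          _ = _ := by ring
      set M := 1024 + j
      have hM : 1 ≤ M := by omega
      have a1 : M ≤ M ^ 5 := Nat.le_self_pow (by norm_num) M
      have a2 : M ^ 2 ≤ M ^ 5 := Nat.pow_le_pow_right hM (by norm_num)
      have a3 : M ^ 3 ≤ M ^ 5 := Nat.pow_le_pow_right hM (by norm_num)
      have a4 : M ^ 4 ≤ M ^ 5 := Nat.pow_le_pow_right hM (by norm_num)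
      have e : (M + 1) ^ 6 = M ^ 6 + 6 * M ^ 5 + 15 * M ^ 4 + 20 * M ^ 3 + 15 * M ^ 2 + 6 * M + 1 := by
        ring
      rw [e]
      omega
    rw [pow_succ 2]
    omega

/-- The exceptional pairs are negligible. -/
theorem few_exceptions {m s : ℕ} (hm : 1024 < m) (hs : 10 * m * s ≤ 9 * 2 ^ m) :
    4 * s * (s + 1) * 2 ^ (m * s) * 2 ^ (2 ^ m / m ^ 6 + 4) ≤ 2 ^ 2 ^ m := by
  have h0 := pow_seven_le m hm.le
  have hmpos : 0 < m ^ 6 := by positivity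
  have hX : 2 ^ m / m ^ 6 * 1024 ≤ 2 ^ m := by
    have h1 : 2 ^ m / m ^ 6 ≤ 2 ^ m / 1024 := by
      refine Nat.div_le_div_left ?_ (by norm_num)
      calc 1024 ≤ m := by omega
        _ ≤ m ^ 6 := Nat.le_self_pow (by norm_num) m
    calc 2 ^ m / m ^ 6 * 1024 ≤ 2 ^ m / 1024 * 1024 := Nat.mul_le_mul_right _ h1
      _ ≤ 2 ^ m := Nat.div_mul_le_self _ _
  have hm2 : m * 1024 ≤ 2 ^ m := by
    calc m * 1024 ≤ m ^ 6 * 1024 := Nat.mul_le_mul_right _ (Nat.le_self_pow (by norm_num) m)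
      _ = 1024 * m ^ 6 := Nat.mul_comm _ _
      _ ≤ 2 ^ m := h0
  have hs1 : 4 * (s + 1) ≤ 2 ^ m := by
    have : 10 * 1024 * s ≤ 9 * 2 ^ m :=
      (Nat.mul_le_mul_right s (Nat.mul_le_mul_left 10 hm.le)).trans hs
    omega
  have hs2 : 4 * s * (s + 1) ≤ 2 ^ (2 * m) := by
    have h3 : s ≤ 2 ^ m := by omega
    calc 4 * s * (s + 1) = s * (4 * (s + 1)) := by ring
      _ ≤ 2 ^ m * 2 ^ m := Nat.mul_le_mul h3 hs1
      _ = 2 ^ (2 * m) := by rw [← pow_add]; congr 1; ring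
  calc 4 * s * (s + 1) * 2 ^ (m * s) * 2 ^ (2 ^ m / m ^ 6 + 4)
      ≤ 2 ^ (2 * m) * 2 ^ (m * s) * 2 ^ (2 ^ m / m ^ 6 + 4) := by gcongr
    _ = 2 ^ (2 * m + m * s + (2 ^ m / m ^ 6 + 4)) := by rw [← pow_add, ← pow_add]
    _ ≤ 2 ^ 2 ^ m := by
      refine Nat.pow_le_pow_right (by norm_num) ?_
      have h4 : 10 * m * s = 10 * (m * s) := by ring
      rw [h4] at hs
      omega

/-- The bias of the shifts is small. -/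
theorem bias_small {ν ℓ : ℕ} (hm : 1024 < ν + 1) (hℓ : 2 ^ (ℓ - 1) ≤ ν) (hℓ1 : 11 ≤ ℓ)
    (h2 : 66 * ℓ + 10 ≤ ν) :
    (1 - 3 / (16 * ((ν : ℝ) + 1))) ^ (2 ^ (ν - 4 * ℓ)) ≤
      1 / 2 ^ (2 ^ (ν + 1) / (ν + 1) ^ 6 + 2) := by
  have hν : (0 : ℝ) < (ν : ℝ) + 1 := by positivity
  have h1 : 1 - 3 / (16 * ((ν : ℝ) + 1)) ≤ Real.exp (-(3 / (16 * ((ν : ℝ) + 1)))) := by
    have := Real.add_one_le_exp (-(3 / (16 * ((ν : ℝ) + 1))))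
    linarith
  have h0 : 0 ≤ 1 - 3 / (16 * ((ν : ℝ) + 1)) := by
    have : 3 / (16 * ((ν : ℝ) + 1)) ≤ 1 := by
      rw [div_le_one (by positivity)]
      have : (0 : ℝ) ≤ ν := Nat.cast_nonneg ν
      linarith
    linarith
  refine (pow_le_pow_left₀ h0 h1 _).trans ?_
  rw [← Real.exp_nat_mul]
  -- compare the exponents
  set X := 2 ^ (ν + 1) / (ν + 1) ^ 6 with hX
  have hXle : (X : ℝ) * ((ν : ℝ) + 1) ^ 6 ≤ 2 ^ (ν + 1) := by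
    have : X * (ν + 1) ^ 6 ≤ 2 ^ (ν + 1) := Nat.div_mul_le_self _ _
    exact_mod_cast this
  have hX1 : (1024 : ℝ) ≤ X := by
    have h3 := pow_seven_le (ν + 1) (by omega)
    have : 1024 ≤ X := by
      rw [hX, Nat.le_div_iff_mul_le (by positivity)]
      exact h3
    exact_mod_cast this
  have hT : (2 : ℝ) ^ ν ≤ 2 ^ (ν - 4 * ℓ) * (16 * (ν : ℝ) ^ 4) := by
    have h4 : 2 ^ ν = 2 ^ (ν - 4 * ℓ) * (2 ^ (ℓ - 1)) ^ 4 * 16 := by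
      rw [← pow_mul, mul_assoc, show (16 : ℕ) = 2 ^ 4 by norm_num, ← pow_add, ← pow_add]
      congr 1
      omega
    have h5 : 2 ^ ν ≤ 2 ^ (ν - 4 * ℓ) * (16 * ν ^ 4) := by
      rw [h4]
      calc 2 ^ (ν - 4 * ℓ) * (2 ^ (ℓ - 1)) ^ 4 * 16 ≤ 2 ^ (ν - 4 * ℓ) * ν ^ 4 * 16 := by gcongr
        _ = _ := by ring
    exact_mod_cast h5
  have key : ((X : ℝ) + 2) ≤ ((2 ^ (ν - 4 * ℓ) : ℕ) : ℝ) * (3 / (16 * ((ν : ℝ) + 1))) := by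
    push_cast
    have h6 : (2 : ℝ) ^ (ν + 1) * 3 ≤ 2 ^ (ν - 4 * ℓ) * (3 / (16 * ((ν : ℝ) + 1))) *
        (512 * ((ν : ℝ) + 1) ^ 5) := by
      have h7 : (2 : ℝ) ^ (ν - 4 * ℓ) * (3 / (16 * ((ν : ℝ) + 1))) * (512 * ((ν : ℝ) + 1) ^ 5) =
          3 * (2 ^ (ν - 4 * ℓ) * (32 * ((ν : ℝ) + 1) ^ 4)) := by
        field_simp
        ring
      rw [h7, pow_succ]
      have h8 : (ν : ℝ) ^ 4 ≤ ((ν : ℝ) + 1) ^ 4 := by gcongr; linarith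
      have h9 : (2 : ℝ) ^ (ν - 4 * ℓ) * (16 * (ν : ℝ) ^ 4) ≤
          2 ^ (ν - 4 * ℓ) * (16 * ((ν : ℝ) + 1) ^ 4) := by gcongr
      linarith
    have hν1 : (1024 : ℝ) ≤ (ν : ℝ) + 1 := by
      have : 1024 ≤ ν + 1 := by omega
      exact_mod_cast this
    have h10 : (X : ℝ) * (3 * ((ν : ℝ) + 1)) ≤
        2 ^ (ν - 4 * ℓ) * (3 / (16 * ((ν : ℝ) + 1))) * 512 := by
      have h11 : (X : ℝ) * (3 * ((ν : ℝ) + 1)) * ((ν : ℝ) + 1) ^ 5 ≤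
          2 ^ (ν - 4 * ℓ) * (3 / (16 * ((ν : ℝ) + 1))) * 512 * ((ν : ℝ) + 1) ^ 5 := by
        calc (X : ℝ) * (3 * ((ν : ℝ) + 1)) * ((ν : ℝ) + 1) ^ 5
            = (X * ((ν : ℝ) + 1) ^ 6) * 3 := by ring
          _ ≤ 2 ^ (ν + 1) * 3 := by linarith
          _ ≤ _ := h6
          _ = _ := by ring
      exact le_of_mul_le_mul_right h11 (by positivity)
    have h14 : (X : ℝ) * (3 * 1024) ≤ X * (3 * ((ν : ℝ) + 1)) :=
      mul_le_mul_of_nonneg_left (by linarith) (Nat.cast_nonneg X)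
    linarith
  have h12 : Real.exp (((2 ^ (ν - 4 * ℓ) : ℕ) : ℝ) * -(3 / (16 * ((ν : ℝ) + 1)))) ≤
      Real.exp (-((X : ℝ) + 2)) := by
    refine Real.exp_le_exp.2 ?_
    linarith
  refine h12.trans ?_
  rw [Real.exp_neg, one_div]
  refine inv_anti₀ (by positivity) ?_
  have h13 : (2 : ℝ) ^ (X + 2) ≤ Real.exp 1 ^ (X + 2) := by
    refine pow_le_pow_left₀ (by norm_num) ?_ _
    have := Real.exp_one_gt_d9
    linarith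
  refine h13.trans (le_of_eq ?_)
  rw [← Real.exp_nat_mul]
  push_cast
  ring_nf

end Pool.Agent.H532R2.MC
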